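import Mathlib

set_option autoImplicit false

open Finset Filter Topology
open scoped Pointwise

namespace Pool.Agent.Helper865.AP

/-- product over the prime factors of `h` above `y` -/
noncomputable def T (y h : ℕ) : ℝ := ∏ p ∈ h.primeFactors.filter (fun p => y < p), (1 - (p : ℝ)⁻¹)⁻¹

/-- primes up to `M` as integers -/
def PZ (M : ℕ) : Finset ℤ := ((Icc 1 M).filter Nat.Prime).image (fun p : ℕ => (p : ℤ))

/-- The lower asymptotic density of a set of natural numbers. -/
noncomputable def lowerDensity (A : Set ℕ) : ℝ :=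
  liminf (fun n : ℕ => ((A ∩ Set.Icc 1 n).ncard : ℝ) / n) atTop

/-- The sumset `A + P` of `A` with the set of primes. -/
def plusPrimes (A : Set ℕ) : Set ℕ := {n | ∃ a ∈ A, ∃ p : ℕ, p.Prime ∧ n = a + p}

end Pool.Agent.Helper865.AP
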