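import Mathlib
import Pool.Agent.Helper865.AP.Defs

set_option autoImplicit false

open Finset Filter Topology
open scoped Pointwise

namespace Pool.Agent.Helper865.AP.N_A1

open Pool.Agent.Helper865.AP


lemma ratio_eq_of_primeFactors {a b : ℕ} (ha : 0 < a) (hb : 0 < b)
    (h : a.primeFactors = b.primeFactors) :
    (a : ℝ) / (Nat.totient a : ℝ) = (b : ℝ) / (Nat.totient b : ℝ) := by
  have key : ∀ n : ℕ, 0 < n → (n : ℝ) / (Nat.totient n : ℝ) =
      (∏ p ∈ n.primeFactors, (1 - (p : ℝ)⁻¹))⁻¹ := by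
    intro n hn
    have h1 : ((Nat.totient n : ℕ) : ℚ) = n * ∏ p ∈ n.primeFactors, (1 - (p : ℚ)⁻¹) :=
      Nat.totient_eq_mul_prod_factors n
    have h2 : ((Nat.totient n : ℕ) : ℝ) = n * ∏ p ∈ n.primeFactors, (1 - (p : ℝ)⁻¹) := by
      have := congrArg (fun q : ℚ => (q : ℝ)) h1
      push_cast at this
      exact this
    have hn' : (n : ℝ) ≠ 0 := by exact_mod_cast hn.ne'
    rw [h2, div_mul_eq_div_div, div_self hn', one_div]
  rw [key a ha, key b hb, h]

theorem class_count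
    (hsieve : ∃ C : ℝ, 0 < C ∧ ∀ a₁ b₁ a₂ b₂ N : ℕ, 0 < a₁ → 0 < a₂ →
      Nat.Coprime a₁ b₁ → Nat.Coprime a₂ b₂ → a₁ * b₂ ≠ a₂ * b₁ → 2 ≤ N →
      (((Finset.Icc 1 N).filter (fun n => (a₁ * n + b₁).Prime ∧ (a₂ * n + b₂).Prime)).card : ℝ) ≤
        C * (((a₁ * a₂ * (((a₁ * b₂ : ℕ) : ℤ) - ((a₂ * b₁ : ℕ) : ℤ)).natAbs : ℕ) : ℝ) /
          ((Nat.totient (a₁ * a₂ * (((a₁ * b₂ : ℕ) : ℤ) - ((a₂ * b₁ : ℕ) : ℤ)).natAbs) : ℕ) : ℝ)) ^ 2
          * N / (Real.log N) ^ 2) :
    ∃ C : ℝ, 0 < C ∧ ∀ (h W N r : ℕ), 0 < h → 0 < W → W ∣ h → Nat.Coprime W r → r < W →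
      4 * W ^ 2 ≤ N →
      (((Icc 1 N).filter (fun n => n % W = r ∧ n.Prime ∧ (n + h).Prime)).card : ℝ) ≤
        1 + C * ((h : ℝ) / (Nat.totient h : ℝ)) ^ 2 * ((N : ℝ) / W) / (Real.log N) ^ 2 := by
  obtain ⟨C₀, hC₀, hs⟩ := hsieve
  refine ⟨4 * C₀, by positivity, ?_⟩
  intro h W N r hh hW hWh hcop hr hN
  set M := N / W with hM
  have hWM : 4 * W ≤ M := by
    rw [hM, Nat.le_div_iff_mul_le hW]
    calc 4 * W * W = 4 * W ^ 2 := by ring
      _ ≤ N := hN
  have hM2 : 2 ≤ M := by omega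
  have hcop2 : Nat.Coprime W (r + h) := by
    obtain ⟨k, rfl⟩ := hWh
    simpa [Nat.coprime_add_mul_left_right] using hcop
  have hne : W * (r + h) ≠ W * r := by
    intro he
    have := Nat.eq_of_mul_eq_mul_left hW he
    omega
  have h1 := hs W r W (r + h) M hW hW hcop hcop2 hne hM2
  have hD : (((W * (r + h) : ℕ) : ℤ) - ((W * r : ℕ) : ℤ)).natAbs = W * h := by
    have : (((W * (r + h) : ℕ) : ℤ) - ((W * r : ℕ) : ℤ)) = ((W * h : ℕ) : ℤ) := by
      push_cast; ring
    rw [this, Int.natAbs_natCast]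
  rw [hD] at h1
  have hpf : (W * W * (W * h)).primeFactors = h.primeFactors := by
    rw [Nat.primeFactors_mul (by positivity) (by positivity),
      Nat.primeFactors_mul hW.ne' hW.ne', Nat.primeFactors_mul hW.ne' hh.ne']
    have : W.primeFactors ⊆ h.primeFactors := Nat.primeFactors_mono hWh hh.ne'
    ext p
    simp only [Finset.mem_union]
    constructor
    · rintro ((h1 | h1) | (h1 | h1)) <;> first | exact this h1 | exact h1
    · intro h1; exact Or.inr (Or.inr h1)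
  have hrat : (((W * W * (W * h) : ℕ) : ℝ) / ((Nat.totient (W * W * (W * h)) : ℕ) : ℝ)) =
      (h : ℝ) / (Nat.totient h : ℝ) :=
    ratio_eq_of_primeFactors (by positivity) hh hpf
  rw [hrat] at h1
  -- counting
  have hcount : ((Icc 1 N).filter (fun n => n % W = r ∧ n.Prime ∧ (n + h).Prime)).card ≤
      1 + ((Icc 1 M).filter (fun n => (W * n + r).Prime ∧ (W * n + (r + h)).Prime)).card := by
    have hsub : (Icc 1 N).filter (fun n => n % W = r ∧ n.Prime ∧ (n + h).Prime) ⊆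
        insert r (((Icc 1 M).filter
          (fun n => (W * n + r).Prime ∧ (W * n + (r + h)).Prime)).image (fun n => W * n + r)) := by
      intro n hn
      rw [Finset.mem_filter, Finset.mem_Icc] at hn
      obtain ⟨⟨hn1, hnN⟩, hnr, hnp, hnh⟩ := hn
      rw [Finset.mem_insert, Finset.mem_image]
      have hdm := Nat.div_add_mod n W
      rw [hnr] at hdm
      rcases Nat.eq_zero_or_pos (n / W) with h0 | h0
      · left
        rw [h0] at hdm
        omega
      · right
        refine ⟨n / W, ?_, hdm⟩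
        rw [Finset.mem_filter, Finset.mem_Icc]
        refine ⟨⟨h0, Nat.div_le_div_right hnN⟩, ?_, ?_⟩
        · rw [hdm]; exact hnp
        · have : W * (n / W) + (r + h) = n + h := by omega
          rw [this]; exact hnh
    calc _ ≤ _ := Finset.card_le_card hsub
      _ ≤ _ + 1 := Finset.card_insert_le _ _
      _ ≤ _ := by
        rw [add_comm]
        exact Nat.add_le_add_left Finset.card_image_le _
  have hcount' : (((Icc 1 N).filter (fun n => n % W = r ∧ n.Prime ∧ (n + h).Prime)).card : ℝ) ≤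
      1 + (((Icc 1 M).filter (fun n => (W * n + r).Prime ∧ (W * n + (r + h)).Prime)).card : ℝ) := by
    exact_mod_cast hcount
  refine hcount'.trans (add_le_add_right (h1.trans ?_) 1 |>.trans_eq rfl)
  -- comparison
  have hW1 : (1 : ℝ) ≤ W := by exact_mod_cast hW
  have hNr : 4 * (W : ℝ) ^ 2 ≤ N := by exact_mod_cast hN
  have hN4 : (4 : ℝ) ≤ N := by nlinarith
  have hNpos : (0 : ℝ) < N := by linarith
  have hlogN : 0 < Real.log N := Real.log_pos (by linarith)
  have hMr : (N : ℝ) ≤ (M : ℝ) ^ 2 := by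
    have h3 : N < W * (M + 1) := by
      rw [hM]
      have := Nat.div_add_mod N W
      have h4 := Nat.mod_lt N hW
      nlinarith
    have h5 : (N : ℝ) < W * (M + 1) := by exact_mod_cast h3
    have h6 : 4 * (W : ℝ) ≤ M := by exact_mod_cast hWM
    nlinarith
  have hMpos : (0 : ℝ) < M := by
    have : (2 : ℝ) ≤ M := by exact_mod_cast hM2
    linarith
  have hlog : Real.log N ≤ 2 * Real.log M := by
    have := Real.log_le_log hNpos hMr
    rwa [Real.log_pow] at this
  have hlogM : 0 < Real.log M := by linarith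
  have hlog2 : (Real.log N) ^ 2 ≤ 4 * (Real.log M) ^ 2 := by nlinarith
  have hMN : (M : ℝ) ≤ (N : ℝ) / W := by
    rw [le_div_iff₀ (by linarith)]
    have : M * W ≤ N := Nat.div_mul_le_self N W
    exact_mod_cast this
  have hA : 0 ≤ ((h : ℝ) / (Nat.totient h : ℝ)) ^ 2 := by positivity
  rw [div_le_div_iff₀ (by positivity) (by positivity)]
  have hNW : 0 ≤ (N : ℝ) / W := by positivity
  calc C₀ * ((h : ℝ) / (Nat.totient h : ℝ)) ^ 2 * M * (Real.log N) ^ 2
      ≤ C₀ * ((h : ℝ) / (Nat.totient h : ℝ)) ^ 2 * ((N : ℝ) / W) * (4 * (Real.log M) ^ 2) := by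
        apply mul_le_mul _ hlog2 (by positivity) (by positivity)
        exact mul_le_mul_of_nonneg_left hMN (by positivity)
    _ = 4 * C₀ * ((h : ℝ) / (Nat.totient h : ℝ)) ^ 2 * ((N : ℝ) / W) * (Real.log M) ^ 2 := by ring

end Pool.Agent.Helper865.AP.N_A1
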