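import Mathlib
import Pool.Agent.Helper865.AP.Defs

set_option autoImplicit false

open Finset Filter Topology
open scoped Pointwise

namespace Pool.Agent.Helper865.AP.N_A2

open Pool.Agent.Helper865.AP


theorem inv_ge_one {p : ℕ} (hp : p.Prime) : 1 ≤ (1 - (p : ℝ)⁻¹)⁻¹ := by
  have h2 : (2 : ℝ) ≤ p := by exact_mod_cast hp.two_le
  have h3 : (p : ℝ)⁻¹ ≤ 2⁻¹ := inv_anti₀ (by norm_num) h2
  have h4 : 0 < (p : ℝ)⁻¹ := by positivity
  apply (one_le_inv₀ (by linarith)).2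
  linarith

theorem prod_ge_one (s : Finset ℕ) (hs : ∀ p ∈ s, p.Prime) :
    1 ≤ ∏ p ∈ s, (1 - (p : ℝ)⁻¹)⁻¹ := by
  apply Finset.prod_induction _ (fun x : ℝ => 1 ≤ x)
  · intro a b ha hb
    exact one_le_mul_of_one_le_of_one_le ha hb
  · exact le_refl _
  · intro p hp
    exact inv_ge_one (hs p hp)

theorem prod_sub_le {s t : Finset ℕ} (hst : s ⊆ t) (ht : ∀ p ∈ t, p.Prime) :
    ∏ p ∈ s, (1 - (p : ℝ)⁻¹)⁻¹ ≤ ∏ p ∈ t, (1 - (p : ℝ)⁻¹)⁻¹ := by
  rw [← Finset.prod_sdiff hst]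
  have h1 := prod_ge_one (t \ s) (fun p hp => ht p (Finset.mem_sdiff.1 hp).1)
  have h2 := prod_ge_one s (fun p hp => ht p (hst hp))
  nlinarith

theorem tot_ratio {h : ℕ} (hh : 0 < h) :
    (h : ℝ) / (Nat.totient h : ℝ) = ∏ p ∈ h.primeFactors, (1 - (p : ℝ)⁻¹)⁻¹ := by
  have h1 : ((Nat.totient h : ℚ) : ℝ) = ((h * ∏ p ∈ h.primeFactors, (1 - (p : ℚ)⁻¹) : ℚ) : ℝ) := by
    rw [Nat.totient_eq_mul_prod_factors]
  push_cast at h1
  rw [h1, Finset.prod_inv_distrib]
  have h2 : (h : ℝ) ≠ 0 := by positivity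
  have h3 : ∏ p ∈ h.primeFactors, (1 - (p : ℝ)⁻¹) ≠ 0 := by
    apply Finset.prod_ne_zero_iff.2
    intro p hp
    have := inv_ge_one (Nat.prime_of_mem_primeFactors hp)
    intro h0
    rw [h0, inv_zero] at this
    linarith
  field_simp

theorem pair_count
    (hclass : ∃ C : ℝ, 0 < C ∧ ∀ (h W N r : ℕ), 0 < h → 0 < W → W ∣ h → Nat.Coprime W r → r < W →
      4 * W ^ 2 ≤ N →
      (((Icc 1 N).filter (fun n => n % W = r ∧ n.Prime ∧ (n + h).Prime)).card : ℝ) ≤
        1 + C * ((h : ℝ) / (Nat.totient h : ℝ)) ^ 2 * ((N : ℝ) / W) / (Real.log N) ^ 2)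
    (hmert : ∃ K : ℝ, 0 < K ∧ ∀ z : ℕ, 2 ≤ z →
      ∏ p ∈ (Icc 1 z).filter Nat.Prime, (1 - (p : ℝ)⁻¹)⁻¹ ≤ K * Real.log z) :
    ∃ C : ℝ, 0 < C ∧ ∀ y : ℕ, 2 ≤ y → ∃ N0 : ℕ, ∀ N : ℕ, N0 ≤ N → ∀ h : ℕ, 0 < h →
      (((Icc 1 N).filter (fun n => n.Prime ∧ (n + h).Prime)).card : ℝ) ≤
        C * Real.log y * (T y h) ^ 2 * N / (Real.log N) ^ 2 := by
  obtain ⟨C₁, hC₁, h1⟩ := hclass
  obtain ⟨K, hK, h2⟩ := hmert
  refine ⟨C₁ * K + 1, by positivity, fun y hy => ?_⟩
  have hlogy : 1 / 2 ≤ Real.log y := by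
    have h3 : Real.log 2 ≤ Real.log y := Real.log_le_log (by norm_num) (by exact_mod_cast hy)
    have := Real.log_two_gt_d9
    linarith
  have hev : ∀ᶠ N : ℕ in atTop, 4 * (4 : ℝ) ^ y * Real.log N ^ 2 ≤ N := by
    have hc : (0 : ℝ) < (4 * 4 ^ y)⁻¹ := by positivity
    have h3 := (Real.isLittleO_pow_log_id_atTop (n := 2)).def hc
    have h4 := (tendsto_natCast_atTop_atTop (R := ℝ)).eventually h3
    filter_upwards [h4] with N hN
    rw [Real.norm_eq_abs, Real.norm_eq_abs, id, abs_of_nonneg (by positivity),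
      abs_of_nonneg (by positivity)] at hN
    have h5 : (0 : ℝ) < 4 * 4 ^ y := by positivity
    rw [inv_mul_eq_div, le_div_iff₀ h5] at hN
    linarith
  obtain ⟨N1, hN1⟩ := eventually_atTop.1 hev
  refine ⟨max N1 (4 * (4 ^ y) ^ 2), fun N hN h hh => ?_⟩
  have hNa := hN1 N ((le_max_left _ _).trans hN)
  have hNb : 4 * (4 ^ y) ^ 2 ≤ N := (le_max_right _ _).trans hN
  have hN2 : 2 ≤ N := by
    have h3 : 1 ≤ 4 ^ y := Nat.one_le_pow _ _ (by norm_num)
    have h4 : 1 ≤ (4 ^ y) ^ 2 := Nat.one_le_pow _ _ h3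
    omega
  have hlogN : 0 < Real.log N := Real.log_pos (by exact_mod_cast hN2)
  set F := h.primeFactors.filter (fun p => ¬ y < p) with hF
  set W := ∏ p ∈ F, p with hW
  have hFp : ∀ p ∈ F, p.Prime := fun p hp =>
    Nat.prime_of_mem_primeFactors (Finset.mem_filter.1 hp).1
  have hW0 : 0 < W := Finset.prod_pos fun p hp => (hFp p hp).pos
  have hWh : W ∣ h := (Finset.prod_dvd_prod_of_subset _ _ _ (Finset.filter_subset _ _)).trans
    (Nat.prod_primeFactors_dvd h)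
  have hW4 : W ≤ 4 ^ y := by
    apply le_trans _ (primorial_le_four_pow y)
    unfold primorial
    apply Finset.prod_le_prod_of_subset_of_one_le'
    · intro p hp
      have h3 := Finset.mem_filter.1 hp
      rw [Finset.mem_filter, Finset.mem_range]
      exact ⟨by omega, hFp p hp⟩
    · intro p hp _
      exact (Finset.mem_filter.1 hp).2.one_le
  have hWN : 4 * W ^ 2 ≤ N := le_trans (Nat.mul_le_mul_left _ (Nat.pow_le_pow_left hW4 2)) hNb
  have hWpf : W.primeFactors = F := Nat.primeFactors_prod hFp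
  -- the counting
  set S := (Icc 1 N).filter (fun n => n.Prime ∧ (n + h).Prime) with hS
  set Q := fun r => (Icc 1 N).filter (fun n => n % W = r ∧ n.Prime ∧ (n + h).Prime) with hQ
  have hsub : S ⊆ (Icc 1 W) ∪ ((range W).filter (fun r => W.Coprime r)).biUnion Q := by
    intro n hn
    rw [hS, Finset.mem_filter] at hn
    rw [Finset.mem_union]
    by_cases hc : W.Coprime n
    · right
      rw [Finset.mem_biUnion]
      refine ⟨n % W, ?_, ?_⟩
      · rw [Finset.mem_filter, Finset.mem_range]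
        refine ⟨Nat.mod_lt _ hW0, ?_⟩
        have : Nat.gcd W n = Nat.gcd (n % W) W := Nat.gcd_rec W n
        rw [Nat.Coprime, Nat.gcd_comm, ← this]
        exact hc
      · rw [hQ]
        simp only [Finset.mem_filter]
        exact ⟨hn.1, trivial, hn.2⟩
    · left
      rw [Finset.mem_Icc]
      refine ⟨(Finset.mem_Icc.1 hn.1).1, ?_⟩
      apply Nat.le_of_dvd hW0
      by_contra hnd
      exact hc ((hn.2.1.coprime_iff_not_dvd.2 hnd).symm)
  have hcard : (S.card : ℝ) ≤ W + (Nat.totient W : ℝ) *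
      (1 + C₁ * ((h : ℝ) / (Nat.totient h : ℝ)) ^ 2 * ((N : ℝ) / W) / (Real.log N) ^ 2) := by
    have h3 : S.card ≤ W + ∑ r ∈ (range W).filter (fun r => W.Coprime r), (Q r).card := by
      calc S.card ≤ _ := Finset.card_le_card hsub
        _ ≤ _ := Finset.card_union_le _ _
        _ ≤ _ := by
          apply Nat.add_le_add
          · simp
          · exact Finset.card_biUnion_le
    have h4 : (S.card : ℝ) ≤ W + ∑ r ∈ (range W).filter (fun r => W.Coprime r),
        ((Q r).card : ℝ) := by exact_mod_cast h3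
    have h5 : ∑ r ∈ (range W).filter (fun r => W.Coprime r), ((Q r).card : ℝ) ≤
        ((range W).filter (fun r => W.Coprime r)).card •
        (1 + C₁ * ((h : ℝ) / (Nat.totient h : ℝ)) ^ 2 * ((N : ℝ) / W) / (Real.log N) ^ 2) := by
      apply Finset.sum_le_card_nsmul
      intro r hr
      rw [Finset.mem_filter, Finset.mem_range] at hr
      exact h1 h W N r hh hW0 hWh hr.2 hr.1 hWN
    rw [nsmul_eq_mul, ← Nat.totient_eq_card_coprime] at h5
    linarith
  -- the main term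
  have hTge : 1 ≤ T y h := prod_ge_one _ fun p hp =>
    Nat.prime_of_mem_primeFactors (Finset.mem_filter.1 hp).1
  set M := ∏ p ∈ F, (1 - (p : ℝ)⁻¹)⁻¹ with hM
  have hMge : 1 ≤ M := prod_ge_one F hFp
  have hMK : M ≤ K * Real.log y := by
    apply le_trans _ (h2 y hy)
    apply prod_sub_le
    · intro p hp
      have h3 := Finset.mem_filter.1 hp
      rw [Finset.mem_filter, Finset.mem_Icc]
      exact ⟨⟨(hFp p hp).one_le, by omega⟩, hFp p hp⟩
    · intro p hp
      exact (Finset.mem_filter.1 hp).2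
  have hWM : (W : ℝ) / (Nat.totient W : ℝ) = M := by
    rw [tot_ratio hW0, hWpf]
  have hhM : (h : ℝ) / (Nat.totient h : ℝ) = T y h * M := by
    rw [tot_ratio hh, hM, hF]
    unfold T
    rw [Finset.prod_filter_mul_prod_filter_not]
  have hφW : (0 : ℝ) < Nat.totient W := by exact_mod_cast Nat.totient_pos.2 hW0
  have hWr : (0 : ℝ) < W := by exact_mod_cast hW0
  have hφWle : (Nat.totient W : ℝ) ≤ W := by exact_mod_cast Nat.totient_le W
  have hW4r : (W : ℝ) ≤ 4 ^ y := by exact_mod_cast hW4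
  rw [hhM] at hcard
  have hmain : (Nat.totient W : ℝ) * (C₁ * (T y h * M) ^ 2 * ((N : ℝ) / W) / (Real.log N) ^ 2) =
      C₁ * M * (T y h) ^ 2 * N / (Real.log N) ^ 2 := by
    have : (Nat.totient W : ℝ) = W / M := by
      rw [← hWM]
      field_simp
    rw [this]
    have hM0 : M ≠ 0 := by positivity
    field_simp
  have hX : (0 : ℝ) ≤ (T y h) ^ 2 * N / (Real.log N) ^ 2 := by positivity
  have hle1 : C₁ * M * (T y h) ^ 2 * N / (Real.log N) ^ 2 ≤
      C₁ * K * Real.log y * ((T y h) ^ 2 * N / (Real.log N) ^ 2) := by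
    have e1 : C₁ * M * (T y h) ^ 2 * N / (Real.log N) ^ 2 =
        (C₁ * M) * ((T y h) ^ 2 * N / (Real.log N) ^ 2) := by ring
    rw [e1]
    apply mul_le_mul_of_nonneg_right _ hX
    rw [mul_assoc]
    exact mul_le_mul_of_nonneg_left hMK hC₁.le
  have hle2 : 2 * (W : ℝ) ≤ Real.log y * ((T y h) ^ 2 * N / (Real.log N) ^ 2) := by
    have h3 : 4 * (4 : ℝ) ^ y ≤ N / Real.log N ^ 2 := by
      rw [le_div_iff₀ (by positivity)]
      exact hNa
    have h4 : (N : ℝ) / Real.log N ^ 2 ≤ (T y h) ^ 2 * N / (Real.log N) ^ 2 := by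
      rw [mul_div_assoc]
      apply le_mul_of_one_le_left (by positivity)
      exact one_le_pow₀ hTge
    have h5 : (1 / 2 : ℝ) * ((T y h) ^ 2 * N / (Real.log N) ^ 2) ≤
        Real.log y * ((T y h) ^ 2 * N / (Real.log N) ^ 2) :=
      mul_le_mul_of_nonneg_right hlogy hX
    linarith
  have e2 : (C₁ * K + 1) * Real.log y * (T y h) ^ 2 * N / (Real.log N) ^ 2 =
      C₁ * K * Real.log y * ((T y h) ^ 2 * N / (Real.log N) ^ 2) +
      Real.log y * ((T y h) ^ 2 * N / (Real.log N) ^ 2) := by ring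
  rw [e2]
  have e3 : (Nat.totient W : ℝ) * (1 + C₁ * (T y h * M) ^ 2 * ((N : ℝ) / W) / (Real.log N) ^ 2) =
      Nat.totient W +
        (Nat.totient W : ℝ) * (C₁ * (T y h * M) ^ 2 * ((N : ℝ) / W) / (Real.log N) ^ 2) := by ring
  rw [e3, hmain] at hcard
  linarith

end Pool.Agent.Helper865.AP.N_A2
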