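import Mathlib
import Pool.Agent.Helper865.AP.Defs

set_option autoImplicit false

open Finset Filter Topology
open scoped Pointwise

namespace Pool.Agent.Helper865.AP.N_B

open Pool.Agent.Helper865.AP


/-- the excess of the factor of `p` in `T ^ (2 k)` -/
noncomputable def uT (k p : ℕ) : ℝ := ((1 - (p : ℝ)⁻¹)⁻¹) ^ (2 * k) - 1

theorem uT_nonneg (k p : ℕ) (hp : 2 ≤ p) : 0 ≤ uT k p := by
  unfold uT
  have hp' : (2 : ℝ) ≤ p := by exact_mod_cast hp
  have h1 : (p : ℝ)⁻¹ ≤ 2⁻¹ := inv_anti₀ (by norm_num) hp'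
  have h2 : 0 < (p : ℝ)⁻¹ := by positivity
  have h3 : (1 : ℝ) ≤ (1 - (p : ℝ)⁻¹)⁻¹ := by
    rw [one_le_inv₀ (by norm_num at h1 ⊢; linarith)]
    linarith
  have h4 := one_le_pow₀ h3 (n := 2 * k)
  linarith

theorem uT_le (y k p : ℕ) (hp : 2 ≤ p) (hk : 1 ≤ k) (hky : k ≤ y) (hyp : y < p) :
    uT k p ≤ 4 * Real.exp 4 * k / p := by
  unfold uT
  have hp' : (2 : ℝ) ≤ p := by exact_mod_cast hp
  have hp0 : (0 : ℝ) < p := by linarith
  have h1 : (p : ℝ)⁻¹ ≤ 2⁻¹ := inv_anti₀ (by norm_num) hp'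
  have h2 : 0 < (p : ℝ)⁻¹ := by positivity
  have hk0 : (0 : ℝ) < k := by exact_mod_cast hk
  have h5 : (1 - (p : ℝ)⁻¹)⁻¹ ≤ Real.exp (2 / p) := by
    have h6 : (1 - (p : ℝ)⁻¹)⁻¹ ≤ 1 + 2 / p := by
      rw [inv_le_iff_one_le_mul₀ (by norm_num at h1 ⊢; linarith)]
      have : (1 - (p : ℝ)⁻¹) * (1 + 2 / p) - 1 = (p : ℝ)⁻¹ * (1 - 2 * (p : ℝ)⁻¹) := by
        field_simp
        ring
      have h7 : 0 ≤ (p : ℝ)⁻¹ * (1 - 2 * (p : ℝ)⁻¹) :=
        mul_nonneg h2.le (by norm_num at h1 ⊢; linarith)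
      linarith [mul_comm (1 - (p : ℝ)⁻¹) (1 + 2 / (p : ℝ))]
    have h8 := Real.add_one_le_exp (2 / (p : ℝ))
    linarith
  have h9 : ((1 - (p : ℝ)⁻¹)⁻¹) ^ (2 * k) ≤ Real.exp (4 * k / p) := by
    have h10 : (0 : ℝ) ≤ (1 - (p : ℝ)⁻¹)⁻¹ := by
      rw [inv_nonneg]
      norm_num at h1 ⊢
      linarith
    calc ((1 - (p : ℝ)⁻¹)⁻¹) ^ (2 * k) ≤ (Real.exp (2 / p)) ^ (2 * k) := pow_le_pow_left₀ h10 h5 _
      _ = Real.exp (4 * k / p) := by
        rw [← Real.exp_nat_mul]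
        congr 1
        push_cast
        ring
  set x : ℝ := 4 * k / p with hx
  have hx0 : 0 ≤ x := by positivity
  have hx4 : x ≤ 4 := by
    rw [hx, div_le_iff₀ hp0]
    have : (k : ℝ) ≤ p := by exact_mod_cast (hky.trans hyp.le)
    linarith
  have h11 : Real.exp x - 1 ≤ x * Real.exp x := by
    have h12 := Real.add_one_le_exp (-x)
    have h13 : (1 - x) * Real.exp x ≤ 1 := by
      calc (1 - x) * Real.exp x ≤ Real.exp (-x) * Real.exp x := by
            apply mul_le_mul_of_nonneg_right _ (Real.exp_pos x).le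
            linarith
        _ = 1 := by rw [← Real.exp_add]; simp
    linarith
  have h14 : x * Real.exp x ≤ x * Real.exp 4 :=
    mul_le_mul_of_nonneg_left (Real.exp_le_exp.mpr hx4) hx0
  have h15 : x * Real.exp 4 = 4 * Real.exp 4 * k / p := by
    rw [hx]; ring
  linarith

theorem T_pow (y k h : ℕ) : (T y h) ^ (2 * k) =
    ∏ p ∈ h.primeFactors.filter (fun p => y < p), (1 + uT k p) := by
  unfold T uT
  rw [← Finset.prod_pow]
  refine Finset.prod_congr rfl fun p _ => ?_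
  ring

theorem T_moment : ∃ C : ℝ, 0 < C ∧ ∀ y k : ℕ, 1 ≤ k → k ≤ y → ∀ N : ℕ,
    ∑ h ∈ Icc 1 N, (T y h) ^ (2 * k) ≤ C * N := by
  classical
  refine ⟨Real.exp (4 * Real.exp 4), Real.exp_pos _, ?_⟩
  intro y k hk hky N
  set Q : Finset ℕ := (Icc 1 N).filter (fun p => p.Prime ∧ y < p) with hQ
  have hQmem : ∀ p, p ∈ Q ↔ (1 ≤ p ∧ p ≤ N) ∧ p.Prime ∧ y < p := by
    intro p
    rw [hQ, Finset.mem_filter, Finset.mem_Icc]
  have hun : ∀ p ∈ Q, 0 ≤ uT k p := fun p hp => uT_nonneg k p ((hQmem p).1 hp).2.1.two_le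
  have step1 : ∀ h ∈ Icc 1 N, (T y h) ^ (2 * k) =
      ∑ t ∈ Q.powerset, if t ⊆ h.primeFactors.filter (fun p => y < p) then ∏ p ∈ t, uT k p else 0 := by
    intro h hh
    rw [Finset.mem_Icc] at hh
    rw [T_pow, Finset.prod_one_add, ← Finset.sum_filter]
    refine Finset.sum_congr ?_ fun _ _ => rfl
    ext t
    simp only [Finset.mem_powerset, Finset.mem_filter]
    constructor
    · intro ht
      refine ⟨fun p hp => ?_, ht⟩
      have := ht hp
      rw [Finset.mem_filter, Nat.mem_primeFactors] at this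
      rw [hQmem]
      exact ⟨⟨this.1.1.one_lt.le, (Nat.le_of_dvd (by omega) this.1.2.1).trans hh.2⟩,
        this.1.1, this.2⟩
    · exact fun ht => ht.2
  have step2 : ∀ t ∈ Q.powerset,
      ((Icc 1 N).filter (fun h => t ⊆ h.primeFactors.filter (fun p => y < p))).card ≤
        (N : ℝ) / ∏ p ∈ t, (p : ℝ) := by
    intro t ht
    rw [Finset.mem_powerset] at ht
    have h1 : ((Icc 1 N).filter (fun h => t ⊆ h.primeFactors.filter (fun p => y < p))) ⊆
        (Ioc 0 N).filter (fun h => (∏ p ∈ t, p) ∣ h) := by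
      intro h hh
      rw [Finset.mem_filter, Finset.mem_Icc] at hh
      rw [Finset.mem_filter, Finset.mem_Ioc]
      refine ⟨⟨by omega, hh.1.2⟩, ?_⟩
      refine Finset.prod_primes_dvd _ (fun p hp => (((hQmem p).1 (ht hp)).2.1).prime) fun p hp => ?_
      have := hh.2 hp
      rw [Finset.mem_filter, Nat.mem_primeFactors] at this
      exact this.1.2.1
    have h2 := Finset.card_le_card h1
    rw [Nat.Ioc_filter_dvd_card_eq_div] at h2
    calc (((Icc 1 N).filter (fun h => t ⊆ h.primeFactors.filter (fun p => y < p))).card : ℝ)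
        ≤ ((N / ∏ p ∈ t, p : ℕ) : ℝ) := by exact_mod_cast h2
      _ ≤ (N : ℝ) / ((∏ p ∈ t, p : ℕ) : ℝ) := Nat.cast_div_le
      _ = (N : ℝ) / ∏ p ∈ t, (p : ℝ) := by rw [Nat.cast_prod]
  have step3 : ∑ h ∈ Icc 1 N, (T y h) ^ (2 * k) ≤
      (N : ℝ) * ∏ p ∈ Q, (1 + uT k p / p) := by
    rw [Finset.sum_congr rfl step1, Finset.sum_comm, Finset.prod_one_add, Finset.mul_sum]
    refine Finset.sum_le_sum fun t ht => ?_
    rw [← Finset.sum_filter, Finset.sum_const, nsmul_eq_mul, Finset.prod_div_distrib]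
    have hu : 0 ≤ ∏ p ∈ t, uT k p :=
      Finset.prod_nonneg fun p hp => hun p (Finset.mem_powerset.1 ht hp)
    calc _ ≤ (N : ℝ) / (∏ p ∈ t, (p : ℝ)) * ∏ p ∈ t, uT k p :=
          mul_le_mul_of_nonneg_right (step2 t ht) hu
      _ = _ := by ring
  have step4 : ∏ p ∈ Q, (1 + uT k p / p) ≤ Real.exp (∑ p ∈ Q, uT k p / p) := by
    rw [Real.exp_sum]
    refine Finset.prod_le_prod (fun p hp => ?_) fun p hp => ?_
    · have := hun p hp
      positivity
    · have := Real.add_one_le_exp (uT k p / p)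
      linarith
  have step5 : ∑ p ∈ Q, uT k p / p ≤ 4 * Real.exp 4 := by
    have hk0 : (0 : ℝ) < k := by exact_mod_cast hk
    have hy0 : (0 : ℝ) < y := by exact_mod_cast (lt_of_lt_of_le hk hky)
    calc ∑ p ∈ Q, uT k p / p ≤ ∑ p ∈ Q, (4 * Real.exp 4 * k) * ((p : ℝ) ^ 2)⁻¹ := by
          refine Finset.sum_le_sum fun p hp => ?_
          have h := (hQmem p).1 hp
          have hp0 : (0 : ℝ) < p := by exact_mod_cast h.2.1.pos
          have h1 := uT_le y k p h.2.1.two_le hk hky h.2.2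
          calc uT k p / p ≤ (4 * Real.exp 4 * k / p) / p := by gcongr
            _ = (4 * Real.exp 4 * k) * ((p : ℝ) ^ 2)⁻¹ := by
              field_simp
      _ = (4 * Real.exp 4 * k) * ∑ p ∈ Q, ((p : ℝ) ^ 2)⁻¹ := by rw [Finset.mul_sum]
      _ ≤ (4 * Real.exp 4 * k) * ∑ p ∈ Ioc y N, ((p : ℝ) ^ 2)⁻¹ := by
          refine mul_le_mul_of_nonneg_left ?_ (by positivity)
          refine Finset.sum_le_sum_of_subset_of_nonneg ?_ fun p _ _ => by positivity
          intro p hp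
          have h := (hQmem p).1 hp
          rw [Finset.mem_Ioc]
          exact ⟨h.2.2, h.1.2⟩
      _ ≤ (4 * Real.exp 4 * k) * (y : ℝ)⁻¹ := by
          refine mul_le_mul_of_nonneg_left ?_ (by positivity)
          rcases le_or_gt y N with hyN | hyN
          · have h := sum_Ioc_inv_sq_le_sub (α := ℝ) (k := y) (n := N) (by omega) hyN
            have h' : (0 : ℝ) ≤ (N : ℝ)⁻¹ := by positivity
            linarith
          · rw [Finset.Ioc_eq_empty (by omega), Finset.sum_empty]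
            positivity
      _ ≤ 4 * Real.exp 4 := by
          rw [mul_assoc]
          have : (k : ℝ) * (y : ℝ)⁻¹ ≤ 1 := by
            rw [mul_inv_le_iff₀ hy0, one_mul]
            exact_mod_cast hky
          calc 4 * Real.exp 4 * ((k : ℝ) * (y : ℝ)⁻¹) ≤ 4 * Real.exp 4 * 1 :=
                mul_le_mul_of_nonneg_left this (by positivity)
            _ = 4 * Real.exp 4 := mul_one _
  calc ∑ h ∈ Icc 1 N, (T y h) ^ (2 * k) ≤ (N : ℝ) * ∏ p ∈ Q, (1 + uT k p / p) := step3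
    _ ≤ (N : ℝ) * Real.exp (∑ p ∈ Q, uT k p / p) := by gcongr
    _ ≤ (N : ℝ) * Real.exp (4 * Real.exp 4) := by gcongr
    _ = Real.exp (4 * Real.exp 4) * N := mul_comm _ _

end Pool.Agent.Helper865.AP.N_B
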