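import Mathlib
import Pool.Agent.Helper865.AP.Defs

set_option autoImplicit false

open Finset Filter Topology
open scoped Pointwise

namespace Pool.Agent.Helper865.AP.N_Cc

open Pool.Agent.Helper865.AP


theorem two_to_one (A : Finset ℤ) (a u : ℤ) (M : ℕ) (ha : a ∈ A) (hA : A ⊆ Icc u (u + M))
    (g : ℕ → ℝ) (hg : ∀ h, 0 ≤ g h) :
    ∑ b ∈ A, (if a ≠ b then g (a - b).natAbs else 0) ≤ 2 * ∑ h ∈ Icc 1 M, g h := by
  have h1 : ∀ b ∈ A, (if a ≠ b then g (a - b).natAbs else 0) ≤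
      (if a < b then g (a - b).natAbs else 0) + (if b < a then g (a - b).natAbs else 0) := by
    intro b _
    rcases lt_trichotomy a b with h | h | h
    · rw [if_pos h.ne, if_pos h, if_neg (not_lt.2 h.le), add_zero]
    · rw [if_neg (by simpa using h), if_neg (by omega), if_neg (by omega), add_zero]
    · rw [if_pos h.ne', if_neg (not_lt.2 h.le), if_pos h, zero_add]
  have haI := mem_Icc.1 (hA ha)
  have h2 : ∑ b ∈ A, (if a < b then g (a - b).natAbs else 0) ≤ ∑ h ∈ Icc 1 M, g h := by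
    rw [← sum_filter]
    have hinj : Set.InjOn (fun b : ℤ => (a - b).natAbs) (A.filter (fun b => a < b)) := by
      intro b hb b' hb' hbb
      have e1 := (mem_filter.1 hb).2
      have e2 := (mem_filter.1 hb').2
      simp only at hbb
      omega
    rw [← sum_image (f := g) hinj]
    apply sum_le_sum_of_subset_of_nonneg
    · intro h hh
      obtain ⟨b, hb, rfl⟩ := mem_image.1 hh
      have e1 := mem_Icc.1 (hA (mem_filter.1 hb).1)
      have e2 := (mem_filter.1 hb).2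
      rw [mem_Icc]
      omega
    · intro h _ _
      exact hg h
  have h3 : ∑ b ∈ A, (if b < a then g (a - b).natAbs else 0) ≤ ∑ h ∈ Icc 1 M, g h := by
    rw [← sum_filter]
    have hinj : Set.InjOn (fun b : ℤ => (a - b).natAbs) (A.filter (fun b => b < a)) := by
      intro b hb b' hb' hbb
      have e1 := (mem_filter.1 hb).2
      have e2 := (mem_filter.1 hb').2
      simp only at hbb
      omega
    rw [← sum_image (f := g) hinj]
    apply sum_le_sum_of_subset_of_nonneg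
    · intro h hh
      obtain ⟨b, hb, rfl⟩ := mem_image.1 hh
      have e1 := mem_Icc.1 (hA (mem_filter.1 hb).1)
      have e2 := (mem_filter.1 hb).2
      rw [mem_Icc]
      omega
    · intro h _ _
      exact hg h
  calc _ ≤ ∑ b ∈ A, ((if a < b then g (a - b).natAbs else 0) +
        (if b < a then g (a - b).natAbs else 0)) := sum_le_sum h1
    _ = _ := sum_add_distrib
    _ ≤ 2 * ∑ h ∈ Icc 1 M, g h := by linarith

theorem pairs_T
    (hmom : ∃ C : ℝ, 0 < C ∧ ∀ y k : ℕ, 1 ≤ k → k ≤ y → ∀ N : ℕ,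
      ∑ h ∈ Icc 1 N, (T y h) ^ (2 * k) ≤ C * N) :
    ∃ C : ℝ, 0 < C ∧ ∀ (y k M : ℕ), 1 ≤ k → k ≤ y → ∀ (A : Finset ℤ) (u : ℤ),
      A ⊆ Icc u (u + M) → (M : ℝ) ≤ Real.exp k * A.card →
      ∑ x ∈ A.offDiag, (T y (x.1 - x.2).natAbs) ^ 2 ≤ C * (A.card : ℝ) ^ 2 := by
  obtain ⟨C, hC, hmom⟩ := hmom
  have hC1 : (1 : ℝ) ≤ max 1 (2 * C) := le_max_left _ _
  refine ⟨max 1 (2 * C) * Real.exp 1, by positivity, ?_⟩
  intro y k M hk hky A u hA hM
  obtain ⟨j, rfl⟩ : ∃ j, k = j + 1 := ⟨k - 1, by omega⟩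
  obtain ⟨n, hn⟩ : ∃ n : ℝ, n = (A.card : ℝ) := ⟨_, rfl⟩
  have hn0 : 0 ≤ n := by rw [hn]; positivity
  obtain ⟨S, hS⟩ : ∃ S : ℝ, S = ∑ x ∈ A.offDiag, (T y (x.1 - x.2).natAbs) ^ 2 := ⟨_, rfl⟩
  have hS0 : 0 ≤ S := by
    rw [hS]
    exact sum_nonneg fun x _ => sq_nonneg _
  have hoff : A.offDiag = (A ×ˢ A).filter (fun x => x.1 ≠ x.2) := by
    ext x
    simp [mem_offDiag, and_assoc]
  have hcard : (A.offDiag.card : ℝ) ≤ n ^ 2 := by
    have h1 : A.offDiag.card ≤ (A ×ˢ A).card := by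
      rw [hoff]
      exact card_filter_le _ _
    rw [card_product] at h1
    rw [hn, pow_two]
    exact_mod_cast h1
  have hpow : S ^ (j + 1) ≤ (A.offDiag.card : ℝ) ^ j *
      ∑ x ∈ A.offDiag, ((T y (x.1 - x.2).natAbs) ^ 2) ^ (j + 1) := by
    rcases A.offDiag.eq_empty_or_nonempty with he | hne
    · rw [hS, he]
      simp
    · have hc : (0 : ℝ) < (A.offDiag.card : ℝ) := by exact_mod_cast hne.card_pos
      have h1 := pow_sum_div_card_le_sum_pow (s := A.offDiag)
        (f := fun x : ℤ × ℤ => (T y (x.1 - x.2).natAbs) ^ 2) (n := j)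
        (fun x _ => sq_nonneg _)
      rw [div_le_iff₀ (by positivity), ← hS] at h1
      rw [mul_comm]
      exact h1
  have hsum : ∑ x ∈ A.offDiag, ((T y (x.1 - x.2).natAbs) ^ 2) ^ (j + 1) ≤
      2 * C * Real.exp ((j + 1 : ℕ) : ℝ) * n ^ 2 := by
    rw [hoff, sum_filter, sum_product]
    have h1 : ∀ a ∈ A, ∑ b ∈ A, (if a ≠ b then ((T y (a - b).natAbs) ^ 2) ^ (j + 1) else 0) ≤
        2 * (C * M) := by
      intro a ha
      refine (two_to_one A a u M ha hA (fun h => ((T y h) ^ 2) ^ (j + 1))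
        (fun h => by positivity)).trans ?_
      apply mul_le_mul_of_nonneg_left _ (by norm_num)
      have := hmom y (j + 1) hk hky M
      simp only [pow_mul] at this
      exact this
    calc _ ≤ ∑ a ∈ A, 2 * (C * M) := sum_le_sum h1
      _ = n * (2 * (C * M)) := by rw [sum_const, nsmul_eq_mul, hn]
      _ ≤ n * (2 * (C * (Real.exp ((j + 1 : ℕ) : ℝ) * n))) := by
        apply mul_le_mul_of_nonneg_left _ hn0
        apply mul_le_mul_of_nonneg_left _ (by norm_num)
        apply mul_le_mul_of_nonneg_left _ hC.le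
        rw [hn]
        exact hM
      _ = _ := by ring
  have hfin : S ^ (j + 1) ≤ (max 1 (2 * C) * Real.exp 1 * n ^ 2) ^ (j + 1) := by
    calc S ^ (j + 1) ≤ (A.offDiag.card : ℝ) ^ j *
        ∑ x ∈ A.offDiag, ((T y (x.1 - x.2).natAbs) ^ 2) ^ (j + 1) := hpow
      _ ≤ (n ^ 2) ^ j * (2 * C * Real.exp ((j + 1 : ℕ) : ℝ) * n ^ 2) := by
        apply mul_le_mul _ hsum (sum_nonneg fun x _ => by positivity) (by positivity)
        exact pow_le_pow_left₀ (by positivity) hcard j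
      _ = (2 * C) * (Real.exp ((j + 1 : ℕ) : ℝ) * (n ^ 2) ^ (j + 1)) := by ring
      _ ≤ (max 1 (2 * C)) ^ (j + 1) * (Real.exp ((j + 1 : ℕ) : ℝ) * (n ^ 2) ^ (j + 1)) := by
        apply mul_le_mul_of_nonneg_right _ (by positivity)
        exact (le_max_right _ _).trans (le_self_pow₀ hC1 (by omega))
      _ = (max 1 (2 * C) * Real.exp 1 * n ^ 2) ^ (j + 1) := by
        rw [mul_pow, mul_pow, ← Real.exp_nat_mul, mul_one]
        ring
  rw [← hS, ← hn]
  exact le_of_pow_le_pow_left₀ (by omega) (by positivity) hfin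

end Pool.Agent.Helper865.AP.N_Cc
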