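import Mathlib
import Pool.Agent.Helper865.AP.Defs

set_option autoImplicit false

open Finset Filter Topology
open scoped Pointwise

namespace Pool.Agent.Helper865.AP.N_D

open Pool.Agent.Helper865.AP


theorem key_pz_card (M : ℕ) : (PZ M).card = Nat.primeCounting M := by
  unfold PZ
  rw [card_image_of_injective _ (fun a b h => by exact_mod_cast h), ← Nat.primesLE_card_eq_primeCounting]
  congr 1
  ext p
  rw [mem_filter, mem_Icc, Nat.mem_primesLE]
  constructor
  · rintro ⟨⟨_, h⟩, hp⟩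
    exact ⟨h, hp⟩
  · rintro ⟨h, hp⟩
    exact ⟨⟨hp.one_le, h⟩, hp⟩

theorem key_prime : ∃ c : ℝ, 0 < c ∧ ∃ M1 : ℕ, ∀ M : ℕ, M1 ≤ M →
    c * M / Real.log M ≤ ((PZ M).card : ℝ) := by
  have hl2 : 0 < Real.log 2 := Real.log_pos (by norm_num)
  refine ⟨Real.log 2 / 2, by positivity, ?_⟩
  have h1 := (Real.isLittleO_log_id_atTop.def (c := Real.log 2 / 4) (by positivity))
  obtain ⟨x0, hx0⟩ := Filter.eventually_atTop.1 h1
  refine ⟨max ⌈x0⌉₊ 2, ?_⟩
  intro M hM
  have hM1 : ⌈x0⌉₊ ≤ M := le_trans (le_max_left _ _) hM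
  have hM2 : 2 ≤ M := le_trans (le_max_right _ _) hM
  have hMx : x0 ≤ (M : ℝ) + 1 := by
    have := Nat.le_ceil x0
    have h3 : ((⌈x0⌉₊ : ℕ) : ℝ) ≤ M := by exact_mod_cast hM1
    linarith
  have hMr : (2 : ℝ) ≤ M := by exact_mod_cast hM2
  have h2 := hx0 _ hMx
  rw [id, Real.norm_eq_abs, Real.norm_eq_abs, abs_of_nonneg (Real.log_nonneg (by linarith)),
    abs_of_nonneg (by linarith)] at h2
  have h4 := Chebyshev.pi_ge M
  rw [key_pz_card]
  refine le_trans ?_ h4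
  have hlogM : 0 < Real.log M := Real.log_pos (by linarith)
  apply div_le_div_of_nonneg_right _ hlogM.le
  nlinarith

theorem key_log (α : ℝ) (hα : 0 < α) : ∃ M2 : ℕ, ∀ M : ℕ, M2 ≤ M →
    (Real.log M) ^ 2 ≤ α * M := by
  have h1 := ((Real.isLittleO_pow_log_id_atTop (n := 2)).def (c := α) hα)
  obtain ⟨x0, hx0⟩ := Filter.eventually_atTop.1 h1
  refine ⟨⌈x0⌉₊, ?_⟩
  intro M hM
  have hMx : x0 ≤ (M : ℝ) := by
    have := Nat.le_ceil x0
    have h3 : ((⌈x0⌉₊ : ℕ) : ℝ) ≤ M := by exact_mod_cast hM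
    linarith
  have h2 := hx0 _ hMx
  rw [id, Real.norm_eq_abs, Real.norm_eq_abs, abs_of_nonneg (by positivity),
    abs_of_nonneg (by positivity)] at h2
  exact h2

theorem key_mem_PZ {M : ℕ} {x : ℤ} (h : x ∈ PZ M) : ∃ p : ℕ, (p : ℤ) = x ∧ p ∈ Icc 1 M ∧ p.Prime := by
  unfold PZ at h
  rw [mem_image] at h
  obtain ⟨p, hp, hx⟩ := h
  rw [mem_filter] at hp
  exact ⟨p, hx, hp.1, hp.2⟩

theorem key_pair (M : ℕ) (a b : ℤ) (hab : a ≠ b) :
    ((PZ M ×ˢ PZ M).filter (fun pq => a + pq.1 = b + pq.2)).card ≤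
      ((Icc 1 M).filter (fun n => n.Prime ∧ (n + (a - b).natAbs).Prime)).card := by
  rcases lt_or_gt_of_ne hab with h | h
  · -- a < b : p = q + (b - a)
    apply card_le_card_of_injOn (fun pq => pq.2.toNat)
    · intro pq hpq
      rw [mem_coe, mem_filter, mem_product] at hpq
      obtain ⟨⟨h1, h2⟩, h3⟩ := hpq
      obtain ⟨p, hp1, hp2, hp3⟩ := key_mem_PZ h1
      obtain ⟨q, hq1, hq2, hq3⟩ := key_mem_PZ h2
      rw [mem_coe, mem_filter]
      have hv : (fun pq : ℤ × ℤ => pq.2.toNat) pq = q := by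
        show pq.2.toNat = q
        rw [← hq1, Int.toNat_natCast]
      rw [hv]
      rw [← hq1, ← hp1] at h3
      have : q + (a - b).natAbs = p := by omega
      rw [this]
      exact ⟨hq2, hq3, hp3⟩
    · intro x hx y hy hxy
      rw [mem_coe, mem_filter, mem_product] at hx hy
      obtain ⟨⟨hx1, hx2⟩, hx3⟩ := hx
      obtain ⟨⟨hy1, hy2⟩, hy3⟩ := hy
      obtain ⟨q, hq1, _, _⟩ := key_mem_PZ hx2
      obtain ⟨q', hq1', _, _⟩ := key_mem_PZ hy2
      simp only at hxy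
      rw [← hq1, ← hq1', Int.toNat_natCast, Int.toNat_natCast] at hxy
      have e2 : x.2 = y.2 := by rw [← hq1, ← hq1', hxy]
      have e1 : x.1 = y.1 := by omega
      exact Prod.ext e1 e2
  · apply card_le_card_of_injOn (fun pq => pq.1.toNat)
    · intro pq hpq
      rw [mem_coe, mem_filter, mem_product] at hpq
      obtain ⟨⟨h1, h2⟩, h3⟩ := hpq
      obtain ⟨p, hp1, hp2, hp3⟩ := key_mem_PZ h1
      obtain ⟨q, hq1, hq2, hq3⟩ := key_mem_PZ h2
      rw [mem_coe, mem_filter]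
      have hv : (fun pq : ℤ × ℤ => pq.1.toNat) pq = p := by
        show pq.1.toNat = p
        rw [← hp1, Int.toNat_natCast]
      rw [hv]
      rw [← hq1, ← hp1] at h3
      have : p + (a - b).natAbs = q := by omega
      rw [this]
      exact ⟨hp2, hp3, hq3⟩
    · intro x hx y hy hxy
      rw [mem_coe, mem_filter, mem_product] at hx hy
      obtain ⟨⟨hx1, hx2⟩, hx3⟩ := hx
      obtain ⟨⟨hy1, hy2⟩, hy3⟩ := hy
      obtain ⟨q, hq1, _, _⟩ := key_mem_PZ hx1
      obtain ⟨q', hq1', _, _⟩ := key_mem_PZ hy1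
      simp only at hxy
      rw [← hq1, ← hq1', Int.toNat_natCast, Int.toNat_natCast] at hxy
      have e1 : x.1 = y.1 := by rw [← hq1, ← hq1', hxy]
      have e2 : x.2 = y.2 := by omega
      exact Prod.ext e1 e2

theorem key_diag (M : ℕ) (a : ℤ) :
    ((PZ M ×ˢ PZ M).filter (fun pq => a + pq.1 = a + pq.2)).card ≤ (PZ M).card := by
  apply card_le_card_of_injOn (fun pq => pq.1)
  · intro pq hpq
    rw [mem_coe, mem_filter, mem_product] at hpq
    exact hpq.1.1
  · intro x hx y hy hxy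
    rw [mem_coe, mem_filter, mem_product] at hx hy
    simp only at hxy
    have h1 := hx.2
    have h2 := hy.2
    exact Prod.ext hxy (by omega)

theorem key_energy (M : ℕ) (A : Finset ℤ) :
    Finset.addEnergy A (PZ M) ≤ A.card * (PZ M).card +
      ∑ x ∈ A.offDiag, ((Icc 1 M).filter
        (fun n => n.Prime ∧ (n + (x.1 - x.2).natAbs).Prime)).card := by
  have h1 : Finset.addEnergy A (PZ M) = ∑ ab ∈ A ×ˢ A,
      ((PZ M ×ˢ PZ M).filter (fun pq => ab.1 + pq.1 = ab.2 + pq.2)).card := by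
    unfold Finset.addEnergy
    rw [card_filter, sum_product]
    apply sum_congr rfl
    intro ab _
    rw [card_filter]
  rw [h1, ← diag_union_offDiag, sum_union (disjoint_diag_offDiag A)]
  apply Nat.add_le_add
  · calc ∑ ab ∈ A.diag, ((PZ M ×ˢ PZ M).filter (fun pq => ab.1 + pq.1 = ab.2 + pq.2)).card
        ≤ ∑ ab ∈ A.diag, (PZ M).card := by
          apply sum_le_sum
          intro ab hab
          rw [mem_diag] at hab
          rw [← hab.2]
          exact key_diag M ab.1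
      _ = A.card * (PZ M).card := by rw [sum_const, diag_card, smul_eq_mul]
  · apply sum_le_sum
    intro ab hab
    rw [mem_offDiag] at hab
    exact key_pair M ab.1 ab.2 hab.2.2

theorem key
    (hpair : ∃ C : ℝ, 0 < C ∧ ∀ y : ℕ, 2 ≤ y → ∃ N0 : ℕ, ∀ N : ℕ, N0 ≤ N → ∀ h : ℕ, 0 < h →
      (((Icc 1 N).filter (fun n => n.Prime ∧ (n + h).Prime)).card : ℝ) ≤
        C * Real.log y * (T y h) ^ 2 * N / (Real.log N) ^ 2)
    (hT : ∃ C : ℝ, 0 < C ∧ ∀ (y k M : ℕ), 1 ≤ k → k ≤ y → ∀ (A : Finset ℤ) (u : ℤ),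
      A ⊆ Icc u (u + M) → (M : ℝ) ≤ Real.exp k * A.card →
      ∑ x ∈ A.offDiag, (T y (x.1 - x.2).natAbs) ^ 2 ≤ C * (A.card : ℝ) ^ 2) :
    ∃ c : ℝ, 0 < c ∧ ∀ α : ℝ, 0 < α → α ≤ 1 → ∃ M0 : ℕ, ∀ M : ℕ, M0 ≤ M →
      ∀ (A : Finset ℤ) (u : ℤ), A ⊆ Icc u (u + M) → α * M ≤ A.card →
      c * M / (1 + Real.log (1 + Real.log (1 / α))) ≤ ((A + PZ M).card : ℝ) := by
  obtain ⟨C1, hC1, hpair⟩ := hpair
  obtain ⟨C2, hC2, hT⟩ := hT
  obtain ⟨c1, hc1, M1, hM1⟩ := key_prime
  refine ⟨c1 ^ 2 / (1 + 2 * (C1 * C2)), by positivity, ?_⟩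
  intro α hα hα1
  set L := Real.log (1 / α) with hLdef
  have hL : 0 ≤ L := Real.log_nonneg (by rw [le_div_iff₀ hα]; linarith)
  obtain ⟨k, hk⟩ : ∃ k, k = ⌈L⌉₊ + 1 := ⟨_, rfl⟩
  obtain ⟨y, hy⟩ : ∃ y, y = k + 1 := ⟨_, rfl⟩
  obtain ⟨N0, hN0⟩ := hpair y (by omega)
  obtain ⟨M2, hM2⟩ := key_log α hα
  refine ⟨max (max N0 M1) (max M2 2), ?_⟩
  intro M hM A u hAu hAM
  have hMN0 : N0 ≤ M := le_trans (le_trans (le_max_left _ _) (le_max_left _ _)) hM
  have hMM1 : M1 ≤ M := le_trans (le_trans (le_max_right _ _) (le_max_left _ _)) hM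
  have hMM2 : M2 ≤ M := le_trans (le_trans (le_max_left _ _) (le_max_right _ _)) hM
  have hMM3 : 2 ≤ M := le_trans (le_trans (le_max_right _ _) (le_max_right _ _)) hM
  have hMr : (2 : ℝ) ≤ M := by exact_mod_cast hMM3
  have hM0 : (0 : ℝ) < M := by linarith
  have hlogM : 0 < Real.log M := Real.log_pos (by linarith)
  have hA : 0 < (A.card : ℝ) := lt_of_lt_of_le (mul_pos hα hM0) hAM
  have hkL : L ≤ k := by
    rw [hk]
    push_cast
    linarith [Nat.le_ceil L]
  have hMA : (M : ℝ) ≤ Real.exp k * A.card := by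
    have h1 : Real.exp L = 1 / α := by rw [hLdef, Real.exp_log (by positivity)]
    have h2 : Real.exp L ≤ Real.exp k := Real.exp_le_exp.2 hkL
    have h3 : (M : ℝ) = (1 / α) * (α * M) := by field_simp
    calc (M : ℝ) = Real.exp L * (α * M) := by rw [h1]; exact h3
      _ ≤ Real.exp k * A.card := by
        apply mul_le_mul h2 hAM (by positivity) (by positivity)
  have hsum := hT y k M (by omega) (by omega) A u hAu hMA
  -- the bound for the logarithm of y
  have hly : Real.log y ≤ 2 * (1 + Real.log (1 + L)) := by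
    have hy1 : (y : ℝ) ≤ 3 * (1 + L) := by
      have := Nat.ceil_lt_add_one hL
      rw [hy, hk]
      push_cast
      linarith
    have hy0 : (0 : ℝ) < y := by
      rw [hy]; positivity
    have h1 : Real.log y ≤ Real.log (3 * (1 + L)) := Real.log_le_log hy0 hy1
    rw [Real.log_mul (by norm_num) (by positivity)] at h1
    have h2 : Real.log 3 ≤ 3 - 1 := Real.log_le_sub_one_of_pos (by norm_num)
    have h3 : 0 ≤ Real.log (1 + L) := Real.log_nonneg (by linarith)
    linarith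
  have hly0 : 0 ≤ Real.log y := by
    apply Real.log_nonneg
    rw [hy]
    push_cast
    have : (0 : ℝ) ≤ k := by positivity
    linarith
  have hl1 : 0 ≤ Real.log (1 + L) := Real.log_nonneg (by linarith)
  -- energy
  set P : ℝ := ((PZ M).card : ℝ) with hP
  set a : ℝ := (A.card : ℝ) with ha
  set Q : ℝ := M / (Real.log M) ^ 2 with hQ
  have hQ0 : 0 < Q := by rw [hQ]; positivity
  have hE1 : ((Finset.addEnergy A (PZ M) : ℕ) : ℝ) ≤ a * P +
      ∑ x ∈ A.offDiag, (((Icc 1 M).filter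
        (fun n => n.Prime ∧ (n + (x.1 - x.2).natAbs).Prime)).card : ℝ) := by
    have := key_energy M A
    have h' : ((Finset.addEnergy A (PZ M) : ℕ) : ℝ) ≤ ((A.card * (PZ M).card +
      ∑ x ∈ A.offDiag, ((Icc 1 M).filter
        (fun n => n.Prime ∧ (n + (x.1 - x.2).natAbs).Prime)).card : ℕ) : ℝ) := by exact_mod_cast this
    push_cast at h'
    exact h'
  have hE2 : ∑ x ∈ A.offDiag, (((Icc 1 M).filter
        (fun n => n.Prime ∧ (n + (x.1 - x.2).natAbs).Prime)).card : ℝ) ≤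
      C1 * Real.log y * Q * (C2 * a ^ 2) := by
    calc ∑ x ∈ A.offDiag, (((Icc 1 M).filter
        (fun n => n.Prime ∧ (n + (x.1 - x.2).natAbs).Prime)).card : ℝ)
        ≤ ∑ x ∈ A.offDiag, C1 * Real.log y * Q * (T y (x.1 - x.2).natAbs) ^ 2 := by
          apply sum_le_sum
          intro x hx
          rw [mem_offDiag] at hx
          have hpos : 0 < (x.1 - x.2).natAbs := Int.natAbs_pos.2 (sub_ne_zero.2 hx.2.2)
          have := hN0 M hMN0 _ hpos
          refine this.trans (le_of_eq ?_)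
          rw [hQ]
          ring
      _ = C1 * Real.log y * Q * ∑ x ∈ A.offDiag, (T y (x.1 - x.2).natAbs) ^ 2 := by
          rw [mul_sum]
      _ ≤ C1 * Real.log y * Q * (C2 * a ^ 2) :=
          mul_le_mul_of_nonneg_left hsum (by positivity)
  have hPM : P ≤ M := by
    rw [hP]
    have h1 : (PZ M).card ≤ M := by
      unfold PZ
      refine card_image_le.trans ((card_filter_le _ _).trans ?_)
      rw [Nat.card_Icc]
      omega
    exact_mod_cast h1
  have hE3 : a * P ≤ a ^ 2 * Q := by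
    have h1 : (Real.log M) ^ 2 ≤ a := (hM2 M hMM2).trans hAM
    have h2 : (M : ℝ) ≤ a * Q := by
      rw [hQ, ← mul_div_assoc, le_div_iff₀ (by positivity), mul_comm]
      exact mul_le_mul_of_nonneg_right h1 hM0.le
    calc a * P ≤ a * (a * Q) := mul_le_mul_of_nonneg_left (hPM.trans h2) hA.le
      _ = a ^ 2 * Q := by ring
  have hE4 : ((Finset.addEnergy A (PZ M) : ℕ) : ℝ) ≤ a ^ 2 * Q * (1 + C1 * C2 * Real.log y) := by
    calc ((Finset.addEnergy A (PZ M) : ℕ) : ℝ) ≤ a ^ 2 * Q + C1 * Real.log y * Q * (C2 * a ^ 2) := by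
          linarith
      _ = a ^ 2 * Q * (1 + C1 * C2 * Real.log y) := by ring
  have hCS : a ^ 2 * P ^ 2 ≤ ((A + PZ M).card : ℝ) * ((Finset.addEnergy A (PZ M) : ℕ) : ℝ) := by
    have := Finset.le_card_add_mul_addEnergy A (PZ M)
    rw [ha, hP]
    exact_mod_cast this
  have hP2 : c1 ^ 2 * M * Q ≤ P ^ 2 := by
    have h1 := hM1 M hMM1
    have h2 : (c1 * M / Real.log M) ^ 2 ≤ P ^ 2 := pow_le_pow_left₀ (by positivity) h1 2
    refine le_trans (le_of_eq ?_) h2
    rw [hQ]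
    ring
  have hfin : c1 ^ 2 * M ≤ ((A + PZ M).card : ℝ) * (1 + C1 * C2 * Real.log y) := by
    have h1 : (a ^ 2 * Q) * (c1 ^ 2 * M) ≤
        (a ^ 2 * Q) * (((A + PZ M).card : ℝ) * (1 + C1 * C2 * Real.log y)) := by
      calc (a ^ 2 * Q) * (c1 ^ 2 * M) = a ^ 2 * (c1 ^ 2 * M * Q) := by ring
        _ ≤ a ^ 2 * P ^ 2 := mul_le_mul_of_nonneg_left hP2 (by positivity)
        _ ≤ ((A + PZ M).card : ℝ) * ((Finset.addEnergy A (PZ M) : ℕ) : ℝ) := hCS
        _ ≤ ((A + PZ M).card : ℝ) * (a ^ 2 * Q * (1 + C1 * C2 * Real.log y)) :=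
            mul_le_mul_of_nonneg_left hE4 (by positivity)
        _ = (a ^ 2 * Q) * (((A + PZ M).card : ℝ) * (1 + C1 * C2 * Real.log y)) := by ring
    exact le_of_mul_le_mul_left h1 (by positivity)
  have hfac : 1 + C1 * C2 * Real.log y ≤ (1 + 2 * (C1 * C2)) * (1 + Real.log (1 + L)) := by
    have hcc : 0 < C1 * C2 := by positivity
    nlinarith [mul_le_mul_of_nonneg_left hly hcc.le]
  rw [div_mul_eq_mul_div, div_div, div_le_iff₀ (by positivity)]
  refine hfin.trans ?_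
  exact mul_le_mul_of_nonneg_left hfac (by positivity)

end Pool.Agent.Helper865.AP.N_D
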