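import Mathlib
import Pool.Agent.Helper865.AP.Defs

set_option autoImplicit false

open Finset Filter Topology
open scoped Pointwise

namespace Pool.Agent.Helper865.AP.N_E1

open Pool.Agent.Helper865.AP


theorem esd_fin (B : Set ℕ) (n : ℕ) : (B ∩ Set.Icc 1 n).Finite :=
  (Set.finite_Icc 1 n).subset Set.inter_subset_right

theorem esd_succ_mem (B : Set ℕ) (n : ℕ) (h : n + 1 ∈ B) :
    (B ∩ Set.Icc 1 (n+1)).ncard = (B ∩ Set.Icc 1 n).ncard + 1 := by
  have e : B ∩ Set.Icc 1 (n+1) = insert (n+1) (B ∩ Set.Icc 1 n) := by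
    ext m
    simp only [Set.mem_inter_iff, Set.mem_Icc, Set.mem_insert_iff]
    constructor
    · rintro ⟨h1, h2, h3⟩
      by_cases hm : m = n + 1
      · exact Or.inl hm
      · exact Or.inr ⟨h1, h2, by omega⟩
    · rintro (rfl | ⟨h1, h2, h3⟩)
      · exact ⟨h, by omega, le_refl _⟩
      · exact ⟨h1, h2, by omega⟩
  rw [e, Set.ncard_insert_of_notMem _ (esd_fin B n)]
  simp

theorem esd_succ_not (B : Set ℕ) (n : ℕ) (h : n + 1 ∉ B) :
    (B ∩ Set.Icc 1 (n+1)).ncard = (B ∩ Set.Icc 1 n).ncard := by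
  congr 1
  ext m
  simp only [Set.mem_inter_iff, Set.mem_Icc]
  constructor
  · rintro ⟨h1, h2, h3⟩
    refine ⟨h1, h2, ?_⟩
    by_contra h4
    have : m = n + 1 := by omega
    exact h (this ▸ h1)
  · rintro ⟨h1, h2, h3⟩
    exact ⟨h1, h2, by omega⟩

theorem exists_subset_density (B : Set ℕ) (β x : ℝ) (hβ : 0 < β) (hx : 0 ≤ x) (hxβ : x ≤ β)
    (hB : Tendsto (fun n : ℕ => ((B ∩ Set.Icc 1 n).ncard : ℝ) / n) atTop (𝓝 β)) :
    ∃ A : Set ℕ, A ⊆ B ∧ (∀ a ∈ A, 1 ≤ a) ∧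
      Tendsto (fun n : ℕ => ((A ∩ Set.Icc 1 n).ncard : ℝ) / n) atTop (𝓝 x) := by
  classical
  set l : ℝ := x / β with hl
  have hl0 : 0 ≤ l := by positivity
  have hl1 : l ≤ 1 := by rw [hl, div_le_one hβ]; exact hxβ
  set c : ℕ → ℕ := fun n => (B ∩ Set.Icc 1 n).ncard with hc
  let A : Set ℕ := {n | 1 ≤ n ∧ n ∈ B ∧ ⌊l * (c (n-1) : ℝ)⌋₊ < ⌊l * (c n : ℝ)⌋₊}
  have key : ∀ n : ℕ, (A ∩ Set.Icc 1 n).ncard = ⌊l * (c n : ℝ)⌋₊ := by
    intro n
    induction n with
    | zero => simp [hc]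
    | succ n ih =>
      by_cases hA : n + 1 ∈ A
      · rw [esd_succ_mem A n hA, ih]
        obtain ⟨_, hB1, hlt⟩ := hA
        have hcs : c (n+1) = c n + 1 := esd_succ_mem B n hB1
        simp only [Nat.add_sub_cancel] at hlt
        have h2 : ⌊l * (c (n+1) : ℝ)⌋₊ ≤ ⌊l * (c n : ℝ)⌋₊ + 1 := by
          rw [hcs]
          push_cast
          have : l * ((c n : ℝ) + 1) ≤ l * (c n : ℝ) + 1 := by nlinarith
          calc ⌊l * ((c n : ℝ) + 1)⌋₊ ≤ ⌊l * (c n : ℝ) + 1⌋₊ := Nat.floor_le_floor this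
            _ = ⌊l * (c n : ℝ)⌋₊ + 1 := Nat.floor_add_one (by positivity)
        omega
      · rw [esd_succ_not A n hA, ih]
        by_cases hB1 : n + 1 ∈ B
        · have hcs : c (n+1) = c n + 1 := esd_succ_mem B n hB1
          have h3 : ¬ (⌊l * (c n : ℝ)⌋₊ < ⌊l * (c (n+1) : ℝ)⌋₊) := by
            intro h4
            exact hA ⟨by omega, hB1, by simpa using h4⟩
          have h5 : ⌊l * (c n : ℝ)⌋₊ ≤ ⌊l * (c (n+1) : ℝ)⌋₊ := by
            apply Nat.floor_le_floor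
            rw [hcs]; push_cast
            nlinarith
          omega
        · have hcs : c (n+1) = c n := esd_succ_not B n hB1
          rw [hcs]
  refine ⟨A, fun a ha => ha.2.1, fun a ha => ha.1, ?_⟩
  have hlim : Tendsto (fun n : ℕ => l * ((c n : ℝ) / n)) atTop (𝓝 (l * β)) := hB.const_mul l
  have hlb : l * β = x := by rw [hl]; field_simp
  rw [hlb] at hlim
  have hlow : Tendsto (fun n : ℕ => l * ((c n : ℝ) / n) - 1 / (n : ℝ)) atTop (𝓝 x) := by
    have := hlim.sub (tendsto_one_div_atTop_nhds_zero_nat (𝕜 := ℝ))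
    simpa using this
  refine tendsto_of_tendsto_of_tendsto_of_le_of_le hlow hlim ?_ ?_
  · intro n
    simp only [key]
    rcases Nat.eq_zero_or_pos n with h0 | h0
    · subst h0; simp
    · have hn : (0:ℝ) < n := by exact_mod_cast h0
      have h6 : l * (c n : ℝ) < ⌊l * (c n : ℝ)⌋₊ + 1 := Nat.lt_floor_add_one _
      have h7 : l * ((c n : ℝ) / n) - 1 / (n : ℝ) = (l * (c n : ℝ) - 1) / n := by ring
      rw [h7]
      exact div_le_div_of_nonneg_right (by linarith) hn.le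
  · intro n
    simp only [key]
    rcases Nat.eq_zero_or_pos n with h0 | h0
    · subst h0; simp
    · have hn : (0:ℝ) < n := by exact_mod_cast h0
      have h6 : (⌊l * (c n : ℝ)⌋₊ : ℝ) ≤ l * (c n : ℝ) := Nat.floor_le (by positivity)
      have h7 : l * ((c n : ℝ) / n) = (l * (c n : ℝ)) / n := by ring
      rw [h7]
      exact div_le_div_of_nonneg_right h6 hn.le

end Pool.Agent.Helper865.AP.N_E1
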