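import Mathlib
import Pool.Agent.Helper865.AP.Defs

set_option autoImplicit false

open Finset Filter Topology
open scoped Pointwise

namespace Pool.Agent.Helper865.AP.N_E2

open Pool.Agent.Helper865.AP


/-- job26417: one residue class, counted up to one -/
theorem job26417_fiber (m : ℕ) (hm : 0 < m) (r : ℕ) (hr : r < m) (n : ℕ) :
    |(((Finset.Ioc 0 n).filter (fun k => k % m = r)).card : ℝ) - (n : ℝ) / m| ≤ 1 := by
  have h := Nat.Ioc_filter_modEq_card 0 n hm r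
  have hfil : (Finset.Ioc 0 n).filter (fun k => k % m = r)
      = (Finset.Ioc 0 n).filter (fun k => k ≡ r [MOD m]) := by
    refine Finset.filter_congr ?_
    intro k _
    unfold Nat.ModEq
    rw [Nat.mod_eq_of_lt hr]
  rw [← hfil] at h
  have hmQ : (0 : ℚ) < (m : ℚ) := by exact_mod_cast hm
  set c : ℕ := ((Finset.Ioc 0 n).filter (fun k => k % m = r)).card with hc
  set u : ℚ := (((n : ℕ) : ℚ) - (r : ℚ)) / (m : ℚ) with hu
  set v : ℚ := (((0 : ℕ) : ℚ) - (r : ℚ)) / (m : ℚ) with hv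
  have huv : u - v = (n : ℚ) / m := by
    rw [hu, hv]; push_cast; ring
  have h1 := Int.floor_le u
  have h2 := Int.lt_floor_add_one u
  have h3 := Int.floor_le v
  have h4 := Int.lt_floor_add_one v
  have hnn : (0 : ℚ) ≤ (n : ℚ) / m := by positivity
  have hcQ : (c : ℚ) = max (((⌊u⌋ : ℤ) : ℚ) - ((⌊v⌋ : ℤ) : ℚ)) 0 := by
    have : ((c : ℤ) : ℚ) = ((max (⌊u⌋ - ⌊v⌋) 0 : ℤ) : ℚ) := by rw [h]
    rw [Int.cast_natCast] at this
    rw [this]; push_cast; rfl
  have hup : (c : ℚ) ≤ (n : ℚ) / m + 1 := by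
    rw [hcQ]
    apply max_le
    · linarith
    · linarith
  have hlo : (n : ℚ) / m - 1 ≤ (c : ℚ) := by
    rw [hcQ]
    refine le_trans ?_ (le_max_left _ _)
    linarith
  have hup' : (c : ℝ) ≤ (n : ℝ) / m + 1 := by
    have h5 : (((c : ℚ)) : ℝ) ≤ (((n : ℚ) / m + 1 : ℚ) : ℝ) := Rat.cast_le.mpr hup
    push_cast at h5; exact h5
  have hlo' : (n : ℝ) / m - 1 ≤ (c : ℝ) := by
    have h5 : (((n : ℚ) / m - 1 : ℚ) : ℝ) ≤ (((c : ℚ)) : ℝ) := Rat.cast_le.mpr hlo
    push_cast at h5; exact h5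
  rw [abs_le]
  constructor <;> linarith

theorem periodic_density (m : ℕ) (hm : 0 < m) (R : Finset ℕ) (hR : R ⊆ range m) :
    Tendsto (fun n : ℕ => (({k : ℕ | k % m ∈ R} ∩ Set.Icc 1 n).ncard : ℝ) / n) atTop
      (𝓝 ((R.card : ℝ) / m)) := by
  classical
  -- the count as a sum over the residue classes
  have hcount : ∀ n : ℕ, (({k : ℕ | k % m ∈ R} ∩ Set.Icc 1 n).ncard : ℝ)
      = ∑ r ∈ R, (((Finset.Ioc 0 n).filter (fun k => k % m = r)).card : ℝ) := by
    intro n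
    have e1 : ({k : ℕ | k % m ∈ R} ∩ Set.Icc 1 n)
        = (((Finset.Ioc 0 n).filter (fun k => k % m ∈ R) : Finset ℕ) : Set ℕ) := by
      ext k
      simp only [Set.mem_inter_iff, Set.mem_ofPred_eq, Set.mem_Icc, Finset.coe_filter,
        Finset.mem_Ioc]
      constructor
      · rintro ⟨h1, h2, h3⟩; exact ⟨⟨by omega, h3⟩, h1⟩
      · rintro ⟨⟨h1, h2⟩, h3⟩; exact ⟨h3, by omega, h2⟩
    rw [e1, Set.ncard_coe_finset]
    have e2 : ((Finset.Ioc 0 n).filter (fun k => k % m ∈ R)).card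
        = ∑ r ∈ R, ((Finset.Ioc 0 n).filter (fun k => k % m = r)).card := by
      have hmaps : Set.MapsTo (fun k : ℕ => k % m)
          (((Finset.Ioc 0 n).filter (fun k => k % m ∈ R) : Finset ℕ) : Set ℕ) (R : Set ℕ) := by
        intro k hk
        have := (Finset.mem_filter.mp (Finset.mem_coe.mp hk)).2
        exact Finset.mem_coe.mpr this
      rw [Finset.card_eq_sum_card_fiberwise hmaps]
      refine Finset.sum_congr rfl ?_
      intro r hr
      congr 1
      ext k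
      simp only [Finset.mem_filter, Finset.mem_Ioc]
      constructor
      · rintro ⟨⟨h1, _⟩, h3⟩; exact ⟨h1, h3⟩
      · rintro ⟨h1, h3⟩; exact ⟨⟨h1, by rw [h3]; exact hr⟩, h3⟩
    rw [e2]; push_cast; rfl
  have hbound : ∀ n : ℕ, |(({k : ℕ | k % m ∈ R} ∩ Set.Icc 1 n).ncard : ℝ)
      - (R.card : ℝ) * ((n : ℝ) / m)| ≤ (R.card : ℝ) := by
    intro n
    rw [hcount n]
    have e3 : (R.card : ℝ) * ((n : ℝ) / m) = ∑ _r ∈ R, ((n : ℝ) / m) := by
      rw [Finset.sum_const, nsmul_eq_mul]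
    rw [e3, ← Finset.sum_sub_distrib]
    refine le_trans (Finset.abs_sum_le_sum_abs _ _) ?_
    calc ∑ r ∈ R, |(((Finset.Ioc 0 n).filter (fun k => k % m = r)).card : ℝ) - (n : ℝ) / m|
        ≤ ∑ _r ∈ R, (1 : ℝ) := by
          refine Finset.sum_le_sum ?_
          intro r hr
          exact job26417_fiber m hm r (Finset.mem_range.mp (hR hr)) n
      _ = (R.card : ℝ) := by rw [Finset.sum_const, nsmul_eq_mul, mul_one]
  have hmR : (0 : ℝ) < (m : ℝ) := by exact_mod_cast hm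
  have hz : Tendsto (fun n : ℕ => (({k : ℕ | k % m ∈ R} ∩ Set.Icc 1 n).ncard : ℝ) / n
      - (R.card : ℝ) / m) atTop (𝓝 0) := by
    refine squeeze_zero_norm' (a := fun n : ℕ => (R.card : ℝ) / (n : ℝ)) ?_
      (tendsto_const_div_atTop_nhds_zero_nat (R.card : ℝ))
    filter_upwards [eventually_gt_atTop 0] with n hn
    have hnR : (0 : ℝ) < (n : ℝ) := by exact_mod_cast hn
    have e4 : (({k : ℕ | k % m ∈ R} ∩ Set.Icc 1 n).ncard : ℝ) / n - (R.card : ℝ) / m
        = ((({k : ℕ | k % m ∈ R} ∩ Set.Icc 1 n).ncard : ℝ) - (R.card : ℝ) * ((n : ℝ) / m)) / n := by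
      field_simp
    rw [e4, Real.norm_eq_abs, abs_div, abs_of_pos hnR]
    exact div_le_div_of_nonneg_right (hbound n) hnR.le
  have := hz.add_const ((R.card : ℝ) / m)
  simpa using this

end Pool.Agent.Helper865.AP.N_E2
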