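import Mathlib
import Pool.Agent.Helper865.AP.Defs

set_option autoImplicit false

open Finset Filter Topology
open scoped Pointwise

namespace Pool.Agent.Helper865.AP

/-- the optimal lower bound function -/
noncomputable def fStar (x : ℝ) : ℝ :=
  sInf {d : ℝ | ∃ A : Set ℕ, (∀ a ∈ A, 1 ≤ a) ∧ lowerDensity A = x ∧ d = lowerDensity (plusPrimes A)}

theorem ratio_nonneg (A : Set ℕ) (n : ℕ) : 0 ≤ ((A ∩ Set.Icc 1 n).ncard : ℝ) / n := by positivity

theorem ratio_le_one (A : Set ℕ) (n : ℕ) : ((A ∩ Set.Icc 1 n).ncard : ℝ) / n ≤ 1 := by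
  have h1 : (A ∩ Set.Icc 1 n).ncard ≤ (Set.Icc 1 n).ncard :=
    Set.ncard_le_ncard Set.inter_subset_right (Set.finite_Icc 1 n)
  have h2 : (Set.Icc 1 n).ncard = n := by
    rw [Set.ncard_eq_toFinset_card']
    simp
  rw [h2] at h1
  rcases Nat.eq_zero_or_pos n with h | h
  · subst h; simp
  · rw [div_le_one (by exact_mod_cast h)]
    exact_mod_cast h1

theorem bdd_ge (A : Set ℕ) : IsBoundedUnder (· ≥ ·) atTop
    (fun n : ℕ => ((A ∩ Set.Icc 1 n).ncard : ℝ) / n) :=
  isBoundedUnder_of ⟨0, fun n => ratio_nonneg A n⟩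

theorem cobdd_ge (A : Set ℕ) : IsCoboundedUnder (· ≥ ·) atTop
    (fun n : ℕ => ((A ∩ Set.Icc 1 n).ncard : ℝ) / n) :=
  (isBoundedUnder_of (r := (· ≤ ·)) ⟨1, fun n => ratio_le_one A n⟩ :
    IsBoundedUnder (· ≤ ·) atTop _).isCoboundedUnder_ge

theorem lowerDensity_mono {A B : Set ℕ} (h : A ⊆ B) : lowerDensity A ≤ lowerDensity B := by
  apply liminf_le_liminf
  · filter_upwards with n
    apply div_le_div_of_nonneg_right _ (Nat.cast_nonneg n)
    exact_mod_cast Set.ncard_le_ncard (Set.inter_subset_inter_left _ h)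
      ((Set.finite_Icc 1 n).inter_of_right _)
  · exact bdd_ge A
  · exact cobdd_ge B

theorem lowerDensity_le_one (A : Set ℕ) : lowerDensity A ≤ 1 := by
  apply liminf_le_of_le (bdd_ge A)
  intro b hb
  obtain ⟨n, hn⟩ := hb.exists
  exact hn.trans (ratio_le_one A n)

theorem lowerDensity_nonneg (A : Set ℕ) : 0 ≤ lowerDensity A :=
  le_liminf_of_le (cobdd_ge A) (Eventually.of_forall fun n => ratio_nonneg A n)

theorem construct_small
    (hE1 : ∀ (B : Set ℕ) (β x : ℝ), 0 < β → 0 ≤ x → x ≤ β →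
      Tendsto (fun n : ℕ => ((B ∩ Set.Icc 1 n).ncard : ℝ) / n) atTop (𝓝 β) →
      ∃ A : Set ℕ, A ⊆ B ∧ (∀ a ∈ A, 1 ≤ a) ∧
      Tendsto (fun n : ℕ => ((A ∩ Set.Icc 1 n).ncard : ℝ) / n) atTop (𝓝 x))
    (hE2 : ∀ (m : ℕ), 0 < m → ∀ (R : Finset ℕ), R ⊆ range m →
      Tendsto (fun n : ℕ => (({k : ℕ | k % m ∈ R} ∩ Set.Icc 1 n).ncard : ℝ) / n) atTop
      (𝓝 ((R.card : ℝ) / m)))
    (hω : ∀ m : ℕ, 0 < m → m.primeFactors.card ≤ m.totient)
    (m : ℕ) (hm : 0 < m) (x : ℝ) (hx : 0 < x) (hxm : x ≤ 1 / m) :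
    ∃ A : Set ℕ, (∀ a ∈ A, 1 ≤ a) ∧ lowerDensity A = x ∧
      lowerDensity (plusPrimes A) ≤ 2 * ((m.totient : ℝ) / m) := by
  classical
  have hmR : (0 : ℝ) < m := by exact_mod_cast hm
  have h1 := hE2 m hm {0} (by intro a ha; rw [Finset.mem_singleton] at ha; subst ha; exact Finset.mem_range.2 hm)
  rw [Finset.card_singleton] at h1
  push_cast at h1
  obtain ⟨A, hAB, hA1, hAx⟩ := hE1 _ (1 / m) x (by positivity) hx.le hxm h1
  refine ⟨A, hA1, hAx.liminf_eq, ?_⟩
  set R : Finset ℕ := ((range m).filter (fun r => m.Coprime r)) ∪ (m.primeFactors.image (fun p => p % m)) with hR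
  have hRsub : R ⊆ range m := by
    intro r hr
    rw [hR, Finset.mem_union] at hr
    rcases hr with hr | hr
    · exact (Finset.mem_filter.1 hr).1
    · rw [Finset.mem_image] at hr
      obtain ⟨p, _, rfl⟩ := hr
      exact Finset.mem_range.2 (Nat.mod_lt _ hm)
  have hRcard : R.card ≤ 2 * m.totient := by
    calc R.card ≤ _ + _ := Finset.card_union_le _ _
      _ ≤ m.totient + m.primeFactors.card := by
          apply Nat.add_le_add
          · exact le_of_eq rfl
          · exact Finset.card_image_le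
      _ ≤ m.totient + m.totient := Nat.add_le_add_left (hω m hm) _
      _ = 2 * m.totient := by ring
  have h2 := hE2 m hm R hRsub
  have hsub : plusPrimes A ⊆ {k : ℕ | k % m ∈ R} := by
    rintro n ⟨a, ha, p, hp, rfl⟩
    have ha' := hAB ha
    simp only [Set.mem_ofPred_eq, Finset.mem_singleton] at ha'
    have hmod : (a + p) % m = p % m := by
      rw [Nat.add_mod, ha', zero_add, Nat.mod_mod]
    simp only [Set.mem_ofPred_eq]
    rw [hmod, hR, Finset.mem_union]
    by_cases hpm : p ∣ m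
    · right
      exact Finset.mem_image_of_mem _ (Nat.mem_primeFactors.2 ⟨hp, hpm, hm.ne'⟩)
    · left
      rw [Finset.mem_filter]
      refine ⟨Finset.mem_range.2 (Nat.mod_lt _ hm), ?_⟩
      have h3 : Nat.Coprime p m := (Nat.Prime.coprime_iff_not_dvd hp).2 hpm
      rw [Nat.coprime_iff_gcd_eq_one, Nat.gcd_comm, ← Nat.gcd_rec, Nat.gcd_comm]
      exact h3
  calc lowerDensity (plusPrimes A) ≤ lowerDensity {k : ℕ | k % m ∈ R} := lowerDensity_mono hsub
    _ = (R.card : ℝ) / m := h2.liminf_eq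
    _ ≤ 2 * ((m.totient : ℝ) / m) := by
        rw [← mul_div_assoc]
        apply div_le_div_of_nonneg_right _ hmR.le
        exact_mod_cast hRcard

theorem construct_large
    (hE1 : ∀ (B : Set ℕ) (β x : ℝ), 0 < β → 0 ≤ x → x ≤ β →
      Tendsto (fun n : ℕ => ((B ∩ Set.Icc 1 n).ncard : ℝ) / n) atTop (𝓝 β) →
      ∃ A : Set ℕ, A ⊆ B ∧ (∀ a ∈ A, 1 ≤ a) ∧
      Tendsto (fun n : ℕ => ((A ∩ Set.Icc 1 n).ncard : ℝ) / n) atTop (𝓝 x))
    (hE2 : ∀ (m : ℕ), 0 < m → ∀ (R : Finset ℕ), R ⊆ range m →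
      Tendsto (fun n : ℕ => (({k : ℕ | k % m ∈ R} ∩ Set.Icc 1 n).ncard : ℝ) / n) atTop
      (𝓝 ((R.card : ℝ) / m)))
    (hω : ∀ m : ℕ, 0 < m → m.primeFactors.card ≤ m.totient)
    (m : ℕ) (hm : 0 < m) (x : ℝ) (hx : 0 < x) (hxm : 2 * ((m.totient : ℝ) / m) ≤ 1 - x) :
    ∃ A : Set ℕ, (∀ a ∈ A, 1 ≤ a) ∧ lowerDensity A = x ∧
      lowerDensity (plusPrimes A) ≤ 1 - 1 / m := by
  classical
  have hmR : (0 : ℝ) < m := by exact_mod_cast hm
  set Bad : Finset ℕ := ((range m).filter (fun r => m.Coprime r)) ∪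
    (m.primeFactors.image (fun p => (m - p % m) % m)) with hBad
  have hBadsub : Bad ⊆ range m := by
    intro r hr
    rw [hBad, Finset.mem_union] at hr
    rcases hr with hr | hr
    · exact (Finset.mem_filter.1 hr).1
    · rw [Finset.mem_image] at hr
      obtain ⟨p, _, rfl⟩ := hr
      exact Finset.mem_range.2 (Nat.mod_lt _ hm)
  have hBadcard : Bad.card ≤ 2 * m.totient := by
    calc Bad.card ≤ _ + _ := Finset.card_union_le _ _
      _ ≤ m.totient + m.primeFactors.card := by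
          apply Nat.add_le_add
          · exact le_of_eq rfl
          · exact Finset.card_image_le
      _ ≤ m.totient + m.totient := Nat.add_le_add_left (hω m hm) _
      _ = 2 * m.totient := by ring
  set R := range m \ Bad with hR
  have hRc : R.card + Bad.card = m := by
    rw [hR, Finset.card_sdiff_add_card_eq_card hBadsub, Finset.card_range]
  have hRx : x ≤ (R.card : ℝ) / m := by
    rw [le_div_iff₀ hmR]
    have h1 : (R.card : ℝ) + Bad.card = m := by exact_mod_cast hRc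
    have h2 : (Bad.card : ℝ) ≤ 2 * m.totient := by exact_mod_cast hBadcard
    rw [← mul_div_assoc, div_le_iff₀ hmR] at hxm
    nlinarith
  have h1 := hE2 m hm R Finset.sdiff_subset
  obtain ⟨A, hAB, hA1, hAx⟩ := hE1 _ _ x (lt_of_lt_of_le hx hRx) hx.le hRx h1
  refine ⟨A, hA1, hAx.liminf_eq, ?_⟩
  have h2 := hE2 m hm ((range m).erase 0) (Finset.erase_subset _ _)
  have hsub : plusPrimes A ⊆ {k : ℕ | k % m ∈ (range m).erase 0} := by
    rintro n ⟨a, ha, p, hp, rfl⟩
    have ha' := hAB ha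
    simp only [Set.mem_ofPred_eq] at ha' ⊢
    rw [Finset.mem_erase]
    refine ⟨?_, Finset.mem_range.2 (Nat.mod_lt _ hm)⟩
    intro h0
    rw [hR, Finset.mem_sdiff] at ha'
    apply ha'.2
    rw [hBad, Finset.mem_union]
    have hdvd : m ∣ a + p := Nat.dvd_of_mod_eq_zero h0
    by_cases hpm : p ∣ m
    · right
      rw [Finset.mem_image]
      refine ⟨p, Nat.mem_primeFactors.2 ⟨hp, hpm, hm.ne'⟩, ?_⟩
      have h3 : (a % m + p % m) % m = 0 := by rw [← Nat.add_mod]; exact h0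
      have ham := Nat.mod_lt a hm
      have hpm' := Nat.mod_lt p hm
      obtain ⟨k, hk⟩ := Nat.dvd_of_mod_eq_zero h3
      have hk2 : k < 2 := by
        by_contra hc
        push Not at hc
        have : m * 2 ≤ m * k := Nat.mul_le_mul_left m hc
        omega
      interval_cases k
      · have : p % m = 0 := by omega
        rw [this]
        simp
        omega
      · have : m - p % m = a % m := by omega
        rw [this, Nat.mod_mod]
    · left
      rw [Finset.mem_filter]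
      refine ⟨Finset.mem_range.2 (Nat.mod_lt _ hm), ?_⟩
      have h3 : Nat.Coprime p m := (Nat.Prime.coprime_iff_not_dvd hp).2 hpm
      rw [Nat.coprime_iff_gcd_eq_one, Nat.gcd_comm, ← Nat.gcd_rec]
      by_contra hg
      obtain ⟨q, hq, hqd⟩ := Nat.exists_prime_and_dvd hg
      have hqm : q ∣ m := hqd.trans (Nat.gcd_dvd_left _ _)
      have hqa : q ∣ a := hqd.trans (Nat.gcd_dvd_right _ _)
      have hqp : q ∣ p := (Nat.dvd_add_right hqa).1 (hqm.trans hdvd)
      exact hq.one_lt.ne' (Nat.dvd_one.1 (h3 ▸ Nat.dvd_gcd hqp hqm))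
  calc lowerDensity (plusPrimes A) ≤ lowerDensity {k : ℕ | k % m ∈ (range m).erase 0} := lowerDensity_mono hsub
    _ = (((range m).erase 0).card : ℝ) / m := h2.liminf_eq
    _ = 1 - 1 / m := by
        rw [Finset.card_erase_of_mem (Finset.mem_range.2 hm), Finset.card_range, Nat.cast_sub hm]
        field_simp
        push_cast
        ring

theorem lowerDensity_le_plus (A : Set ℕ) : lowerDensity A ≤ lowerDensity (plusPrimes A) := by
  apply le_of_forall_lt
  intro b hb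
  obtain ⟨b', hbb', hb'⟩ := exists_between hb
  have h1 : ∀ᶠ n : ℕ in atTop, b' < ((A ∩ Set.Icc 1 n).ncard : ℝ) / n :=
    eventually_lt_of_lt_liminf hb' (bdd_ge A)
  obtain ⟨b'', hbb'', hb''⟩ := exists_between hbb'
  refine lt_of_lt_of_le hbb'' ?_
  apply le_liminf_of_le (cobdd_ge _)
  have h2 : Tendsto (fun n : ℕ => (2 : ℝ) / n) atTop (𝓝 0) := tendsto_const_div_atTop_nhds_zero_nat 2
  have h3 : ∀ᶠ n : ℕ in atTop, (2 : ℝ) / n < b' - b'' := h2.eventually_lt_const (by linarith)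
  filter_upwards [h1, h3, eventually_gt_atTop 0] with n hn1 hn3 hn0
  have hcard : (A ∩ Set.Icc 1 n).ncard ≤ (plusPrimes A ∩ Set.Icc 1 n).ncard + 2 := by
    have hsub : A ∩ Set.Icc 1 n ⊆ (A ∩ Set.Icc 1 (n - 2)) ∪ Set.Icc (n - 1) n := by
      rintro a ⟨ha, ha1, ha2⟩
      by_cases h : a ≤ n - 2
      · left; exact ⟨ha, ha1, h⟩
      · right; exact ⟨by omega, ha2⟩
    have hfin : (A ∩ Set.Icc 1 (n - 2)).Finite := (Set.finite_Icc _ _).inter_of_right _
    have e1 : (A ∩ Set.Icc 1 n).ncard ≤ (A ∩ Set.Icc 1 (n - 2)).ncard + (Set.Icc (n - 1) n).ncard :=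
      (Set.ncard_le_ncard hsub (hfin.union (Set.finite_Icc _ _))).trans (Set.ncard_union_le _ _)
    have e2 : (Set.Icc (n - 1) n).ncard ≤ 2 := by
      rw [Set.ncard_eq_toFinset_card']
      simp
      omega
    have e3 : (A ∩ Set.Icc 1 (n - 2)).ncard ≤ (plusPrimes A ∩ Set.Icc 1 n).ncard := by
      apply Set.ncard_le_ncard_of_injOn (fun a => a + 2)
      · rintro a ⟨ha, ha1, ha2⟩
        exact ⟨⟨a, ha, 2, Nat.prime_two, rfl⟩, by show 1 ≤ a + 2; omega, by show a + 2 ≤ n; omega⟩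
      · intro a _ b _ h
        simpa using h
    omega
  have hn0' : (0 : ℝ) < n := by exact_mod_cast hn0
  have h4 : ((A ∩ Set.Icc 1 n).ncard : ℝ) ≤ (plusPrimes A ∩ Set.Icc 1 n).ncard + 2 := by exact_mod_cast hcard
  have h5 : ((A ∩ Set.Icc 1 n).ncard : ℝ) / n ≤ ((plusPrimes A ∩ Set.Icc 1 n).ncard : ℝ) / n + 2 / n := by
    rw [← add_div]; exact div_le_div_of_nonneg_right h4 hn0'.le
  linarith

theorem final
    (hE1 : ∀ (B : Set ℕ) (β x : ℝ), 0 < β → 0 ≤ x → x ≤ β →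
      Tendsto (fun n : ℕ => ((B ∩ Set.Icc 1 n).ncard : ℝ) / n) atTop (𝓝 β) →
      ∃ A : Set ℕ, A ⊆ B ∧ (∀ a ∈ A, 1 ≤ a) ∧
      Tendsto (fun n : ℕ => ((A ∩ Set.Icc 1 n).ncard : ℝ) / n) atTop (𝓝 x))
    (hE2 : ∀ (m : ℕ), 0 < m → ∀ (R : Finset ℕ), R ⊆ range m →
      Tendsto (fun n : ℕ => (({k : ℕ | k % m ∈ R} ∩ Set.Icc 1 n).ncard : ℝ) / n) atTop
      (𝓝 ((R.card : ℝ) / m)))
    (hω : ∀ m : ℕ, 0 < m → m.primeFactors.card ≤ m.totient)
    (hG : ∀ z : ℕ, ((primorial z).totient : ℝ) / (primorial z : ℝ) * Real.log (z + 1) ≤ 1)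
    (hI1 : ∃ c : ℝ, 0 < c ∧ ∀ A : Set ℕ, 0 < lowerDensity A → lowerDensity A ≤ 1 →
      c / (1 + Real.log (1 + Real.log (1 / lowerDensity A))) ≤ lowerDensity (plusPrimes A))
    (hI2 : ∃ c : ℝ, 0 < c ∧ ∀ (A : Set ℕ) (y : ℝ), 0 < y → y ≤ 1 → lowerDensity (plusPrimes A) < 1 - y →
      c / (1 + Real.log (1 + Real.log (8 / y))) ≤ 1 - lowerDensity A)
    (hinv : ∀ c : ℝ, 0 < c → ∃ c' : ℝ, 0 < c' ∧ ∀ x y : ℝ, 1 / 2 ≤ x → x < 1 →
      0 < y → y ≤ 1 - x → c / (1 + Real.log (1 + Real.log (8 / y))) ≤ 1 - x →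
      y ≤ Real.exp (-(c' * Real.exp (c' / (1 - x)))))
    (hsmall : ∃ C : ℝ, 0 < C ∧ ∀ x : ℝ, 0 < x → x < 1 → ∀ z : ℕ,
      z = ⌊Real.log (1 / x) / Real.log 4⌋₊ →
      (z = 0 → 1 ≤ C / (1 + Real.log (1 + Real.log (1 / x)))) ∧
      (1 ≤ z → 2 / Real.log ((z : ℝ) + 1) ≤ C / (1 + Real.log (1 + Real.log (1 / x)))))
    (hmod : ∃ C : ℝ, 0 < C ∧ ∀ ε : ℝ, 0 < ε → ε < 1 → ∀ z : ℕ,
      z = ⌈Real.exp (2 / ε)⌉₊ → 2 / Real.log ((z : ℝ) + 1) ≤ ε ∧
      (4 : ℝ) ^ z ≤ Real.exp (Real.exp (C / ε))) :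
    ∃ c C : ℝ, 0 < c ∧ 0 < C ∧
      (∀ x : ℝ, 0 < x → x < 1 →
        c / (1 + Real.log (1 + Real.log (1 / x))) ≤ fStar x ∧
        fStar x ≤ C / (1 + Real.log (1 + Real.log (1 / x)))) ∧
      (∀ x : ℝ, 1 / 2 ≤ x → x < 1 →
        Real.exp (-Real.exp (C / (1 - x))) ≤ 1 - fStar x ∧
        1 - fStar x ≤ Real.exp (-(c * Real.exp (c / (1 - x))))) := by
  obtain ⟨c1, hc1, h1⟩ := hI1
  obtain ⟨c2, hc2, h2⟩ := hI2
  obtain ⟨c3, hc3, h3⟩ := hinv c2 hc2
  obtain ⟨C1, hC1, hs⟩ := hsmall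
  obtain ⟨C2, hC2, hm2⟩ := hmod
  have hbdd : ∀ x : ℝ, BddBelow {d : ℝ | ∃ A : Set ℕ, (∀ a ∈ A, 1 ≤ a) ∧ lowerDensity A = x ∧
      d = lowerDensity (plusPrimes A)} := by
    intro x
    refine ⟨0, ?_⟩
    rintro d ⟨A, _, _, rfl⟩
    exact lowerDensity_nonneg _
  have hprim : ∀ z : ℕ, 0 < primorial z := fun z => primorial_pos z
  have hprimle : ∀ z : ℕ, (primorial z : ℝ) ≤ 4 ^ z := by
    intro z
    exact_mod_cast primorial_le_four_pow z
  -- small x construction
  have hcon1 : ∀ x : ℝ, 0 < x → x < 1 → ∃ A : Set ℕ, (∀ a ∈ A, 1 ≤ a) ∧ lowerDensity A = x ∧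
      lowerDensity (plusPrimes A) ≤ C1 / (1 + Real.log (1 + Real.log (1 / x))) := by
    intro x hx0 hx1
    set z := ⌊Real.log (1 / x) / Real.log 4⌋₊ with hz
    have hlog4 : 0 < Real.log 4 := Real.log_pos (by norm_num)
    have hlx : 0 ≤ Real.log (1 / x) := Real.log_nonneg (by rw [le_div_iff₀ hx0]; linarith)
    have hz1 : (z : ℝ) * Real.log 4 ≤ Real.log (1 / x) := by
      rw [← le_div_iff₀ hlog4]
      exact Nat.floor_le (by positivity)
    have h4z : (4 : ℝ) ^ z ≤ 1 / x := by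
      rw [← Real.log_pow] at hz1
      exact (Real.log_le_log_iff (by positivity) (by positivity)).1 hz1
    have hmx : x ≤ 1 / (primorial z : ℝ) := by
      have hp : (0 : ℝ) < primorial z := by exact_mod_cast hprim z
      rw [le_div_iff₀ hp]
      have := (hprimle z).trans h4z
      rw [le_div_iff₀ hx0] at this
      linarith
    obtain ⟨A, hA1, hAx, hAp⟩ := construct_small hE1 hE2 hω (primorial z) (hprim z) x hx0 hmx
    refine ⟨A, hA1, hAx, ?_⟩
    obtain ⟨hs0, hs1⟩ := hs x hx0 hx1 z hz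
    rcases Nat.eq_zero_or_pos z with h0 | h0
    · exact (lowerDensity_le_one _).trans (hs0 h0)
    · refine hAp.trans (le_trans ?_ (hs1 h0))
      have hl : 0 < Real.log ((z : ℝ) + 1) := Real.log_pos (by
        have : (1 : ℝ) ≤ z := by exact_mod_cast h0
        linarith)
      rw [le_div_iff₀ hl]
      have := hG z
      nlinarith
  have hcon2 : ∀ x : ℝ, 0 < x → x < 1 → ∃ A : Set ℕ, (∀ a ∈ A, 1 ≤ a) ∧ lowerDensity A = x ∧
      Real.exp (-Real.exp (C2 / (1 - x))) ≤ 1 - lowerDensity (plusPrimes A) := by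
    intro x hx0 hx1
    set z := ⌈Real.exp (2 / (1 - x))⌉₊ with hz
    obtain ⟨hm1, hm4⟩ := hm2 (1 - x) (by linarith) (by linarith) z hz
    have hz0 : 0 < z := Nat.ceil_pos.2 (Real.exp_pos _)
    have hl : 0 < Real.log ((z : ℝ) + 1) := Real.log_pos (by
        have : (1 : ℝ) ≤ z := by exact_mod_cast hz0
        linarith)
    have hp : (0 : ℝ) < primorial z := by exact_mod_cast hprim z
    have hmx : 2 * (((primorial z).totient : ℝ) / (primorial z)) ≤ 1 - x := by
      refine le_trans ?_ hm1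
      rw [le_div_iff₀ hl]
      have := hG z
      nlinarith
    obtain ⟨A, hA1, hAx, hAp⟩ := construct_large hE1 hE2 hω (primorial z) (hprim z) x hx0 hmx
    refine ⟨A, hA1, hAx, ?_⟩
    have h5 : 1 / (primorial z : ℝ) ≤ 1 - lowerDensity (plusPrimes A) := by linarith
    refine le_trans ?_ h5
    rw [Real.exp_neg, ← one_div]
    exact one_div_le_one_div_of_le hp ((hprimle z).trans hm4)
  refine ⟨min c1 c3, max C1 C2, lt_min hc1 hc3, lt_max_of_lt_left hC1, ?_, ?_⟩
  · intro x hx0 hx1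
    have hlx : 0 ≤ Real.log (1 / x) := Real.log_nonneg (by rw [le_div_iff₀ hx0]; linarith)
    have hL : 0 < 1 + Real.log (1 + Real.log (1 / x)) := by
      have : 0 ≤ Real.log (1 + Real.log (1 / x)) := Real.log_nonneg (by linarith)
      linarith
    constructor
    · apply le_csInf
      · obtain ⟨A, hA1, hAx, _⟩ := hcon1 x hx0 hx1
        exact ⟨_, A, hA1, hAx, rfl⟩
      · rintro d ⟨A, hA1, hAx, rfl⟩
        have := h1 A (by rw [hAx]; exact hx0) (by rw [hAx]; exact hx1.le)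
        rw [hAx] at this
        refine le_trans ?_ this
        exact div_le_div_of_nonneg_right (min_le_left _ _) hL.le
    · obtain ⟨A, hA1, hAx, hAp⟩ := hcon1 x hx0 hx1
      refine (csInf_le (hbdd x) ⟨A, hA1, hAx, rfl⟩).trans (hAp.trans ?_)
      exact div_le_div_of_nonneg_right (le_max_left _ _) hL.le
  · intro x hxh hx1
    have hx0 : 0 < x := by linarith
    have hε : 0 < 1 - x := by linarith
    constructor
    · obtain ⟨A, hA1, hAx, hAp⟩ := hcon2 x hx0 hx1
      have h6 : fStar x ≤ lowerDensity (plusPrimes A) := csInf_le (hbdd x) ⟨A, hA1, hAx, rfl⟩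
      have h7 : Real.exp (-Real.exp (max C1 C2 / (1 - x))) ≤ Real.exp (-Real.exp (C2 / (1 - x))) := by
        apply Real.exp_le_exp.2
        apply neg_le_neg
        apply Real.exp_le_exp.2
        exact div_le_div_of_nonneg_right (le_max_right _ _) hε.le
      linarith
    · have h8 : 1 - Real.exp (-(c3 * Real.exp (c3 / (1 - x)))) ≤ fStar x := by
        apply le_csInf
        · obtain ⟨A, hA1, hAx, _⟩ := hcon1 x hx0 hx1
          exact ⟨_, A, hA1, hAx, rfl⟩
        · rintro d ⟨A, hA1, hAx, rfl⟩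
          by_contra hcon
          push Not at hcon
          set E := Real.exp (-(c3 * Real.exp (c3 / (1 - x)))) with hE
          have hE0 : 0 < E := Real.exp_pos _
          have hle : x ≤ lowerDensity (plusPrimes A) := by rw [← hAx]; exact lowerDensity_le_plus A
          set y := (E + (1 - lowerDensity (plusPrimes A))) / 2 with hy
          have hy1 : E < y := by rw [hy]; linarith
          have hy2 : y < 1 - lowerDensity (plusPrimes A) := by rw [hy]; linarith
          have h9 := h2 A y (by linarith) (by linarith) (by linarith)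
          rw [hAx] at h9
          have h10 := h3 x y hxh hx1 (by linarith) (by linarith) h9
          linarith
      have h11 : Real.exp (-(c3 * Real.exp (c3 / (1 - x)))) ≤
          Real.exp (-(min c1 c3 * Real.exp (min c1 c3 / (1 - x)))) := by
        apply Real.exp_le_exp.2
        apply neg_le_neg
        have hmin : 0 < min c1 c3 := lt_min hc1 hc3
        apply mul_le_mul (min_le_right _ _) _ (Real.exp_pos _).le hc3.le
        apply Real.exp_le_exp.2
        exact div_le_div_of_nonneg_right (min_le_right _ _) hε.le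
      linarith

end Pool.Agent.Helper865.AP
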