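import Mathlib
import Pool.Agent.Helper865.AP.Defs

set_option autoImplicit false

open Finset Filter Topology
open scoped Pointwise

namespace Pool.Agent.Helper865.AP.N_G

open Pool.Agent.Helper865.AP


theorem totient_primorial (z : ℕ) :
    ((primorial z).totient : ℝ) / (primorial z : ℝ) * Real.log (z + 1) ≤ 1 := by
  have hpos : (0:ℝ) < (primorial z : ℝ) := by exact_mod_cast primorial_pos z
  have h1 : ((primorial z).totient : ℝ) / (primorial z : ℝ)
      = ∏ p ∈ (z+1).primesBelow, (1 - (p : ℝ)⁻¹) := by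
    have h := Nat.totient_eq_mul_prod_factors (primorial z)
    have h2 : ((primorial z).totient : ℝ)
        = (primorial z : ℝ) * ∏ p ∈ (primorial z).primeFactors, (1 - (p : ℝ)⁻¹) := by
      have := congrArg (fun q : ℚ => (q : ℝ)) h
      push_cast at this
      exact this
    have h3 : (primorial z).primeFactors = (z+1).primesBelow := by
      rw [primeFactors_primorial]
      ext p
      simp [Nat.mem_primesBelow, Nat.mem_primesLE, Nat.lt_succ_iff]
    rw [h2, h3]
    field_simp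
  let f : ℕ →* ℝ := 
    { toFun := fun n => (n : ℝ)⁻¹
      map_one' := by simp
      map_mul' := by intro a b; push_cast; rw [mul_inv] }
  have hf : ∀ {p : ℕ}, p.Prime → ‖f p‖ < 1 := by
    intro p hp
    show ‖((p:ℝ)⁻¹)‖ < 1
    rw [norm_inv, Real.norm_natCast]
    exact inv_lt_one_of_one_lt₀ (by exact_mod_cast hp.one_lt)
  obtain ⟨hs, hsum⟩ := EulerProduct.summable_and_hasSum_smoothNumbers_prod_primesBelow_geometric
    (f := f) hf (z+1)
  have hlog : Real.log (z+1) ≤ ∏ p ∈ (z+1).primesBelow, (1 - (p : ℝ)⁻¹)⁻¹ := by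
    have ha : Real.log ((z:ℝ)+1) ≤ ((harmonic z : ℚ) : ℝ) := by
      have := log_add_one_le_harmonic z
      push_cast at this
      exact this
    refine ha.trans ?_
    rw [harmonic_eq_sum_Icc]
    push_cast
    have hmem : ∀ i ∈ Finset.Icc 1 z, i ∈ (z+1).smoothNumbers := by
      intro i hi
      rw [Finset.mem_Icc] at hi
      exact Nat.mem_smoothNumbers_of_lt (by omega) (by omega)
    let S : Finset ((z+1).smoothNumbers) := 
      (Finset.Icc 1 z).attach.map ⟨fun i => ⟨i.1, hmem i.1 i.2⟩, by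
        intro a b hab
        exact Subtype.ext (congrArg (fun x : (z+1).smoothNumbers => (x : ℕ)) hab)⟩
    have h4 := sum_le_hasSum S (fun i _ => (by show (0:ℝ) ≤ ((i.1:ℝ))⁻¹; positivity)) hsum
    have h5 : ∑ i ∈ S, f (i : ℕ) = ∑ i ∈ Finset.Icc 1 z, ((i:ℝ))⁻¹ := by
      rw [Finset.sum_map]
      exact Finset.sum_attach (Finset.Icc 1 z) (fun i => ((i:ℝ))⁻¹)
    rw [h5] at h4
    exact h4
  have hP : 0 < ∏ p ∈ (z+1).primesBelow, (1 - (p : ℝ)⁻¹) := by
    refine Finset.prod_pos fun p hp => ?_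
    have : (p:ℝ)⁻¹ < 1 := inv_lt_one_of_one_lt₀ (by exact_mod_cast (Nat.prime_of_mem_primesBelow hp).one_lt)
    linarith
  rw [h1]
  rw [Finset.prod_inv_distrib] at hlog
  calc (∏ p ∈ (z+1).primesBelow, (1 - (p : ℝ)⁻¹)) * Real.log (z+1)
      ≤ (∏ p ∈ (z+1).primesBelow, (1 - (p : ℝ)⁻¹)) * (∏ p ∈ (z+1).primesBelow, (1 - (p : ℝ)⁻¹))⁻¹ :=
        mul_le_mul_of_nonneg_left hlog hP.le
    _ = 1 := mul_inv_cancel₀ hP.ne'

theorem omega_le_totient (m : ℕ) (hm : 0 < m) : m.primeFactors.card ≤ m.totient := by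
  have h := Nat.totient_mul_prod_primeFactors m
  have hR : (∏ p ∈ m.primeFactors, p) ≤ m := Nat.le_of_dvd hm (Nat.prod_primeFactors_dvd m)
  have hRpos : 0 < ∏ p ∈ m.primeFactors, p := Finset.prod_pos fun p hp => (Nat.prime_of_mem_primeFactors hp).pos
  have hP : ∏ p ∈ m.primeFactors, (p - 1) ≤ m.totient := by
    have h2 : (∏ p ∈ m.primeFactors, (p - 1)) * (∏ p ∈ m.primeFactors, p) ≤ m.totient * ∏ p ∈ m.primeFactors, p := by
      rw [h, mul_comm]
      exact Nat.mul_le_mul_right _ hR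
    exact Nat.le_of_mul_le_mul_right h2 hRpos
  refine le_trans ?_ hP
  have h3 : ∏ p ∈ m.primeFactors.erase 2, (p - 1) = ∏ p ∈ m.primeFactors, (p - 1) :=
    Finset.prod_erase _ (by norm_num)
  rw [← h3]
  have h4 : 2 ^ (m.primeFactors.erase 2).card ≤ ∏ p ∈ m.primeFactors.erase 2, (p - 1) := by
    apply Finset.pow_card_le_prod
    intro p hp
    rw [Finset.mem_erase] at hp
    have h5 := (Nat.prime_of_mem_primeFactors hp.2).two_le
    omega
  have h6 : (m.primeFactors.erase 2).card < 2 ^ (m.primeFactors.erase 2).card := Nat.lt_two_pow_self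
  have h7 : m.primeFactors.card ≤ (m.primeFactors.erase 2).card + 1 := by
    have := Finset.pred_card_le_card_erase (s := m.primeFactors) (a := 2)
    omega
  omega

end Pool.Agent.Helper865.AP.N_G
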