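import Mathlib
import Pool.Agent.Helper865.AP.Defs

set_option autoImplicit false

open Finset Filter Topology
open scoped Pointwise

namespace Pool.Agent.Helper865.AP.N_I1

open Pool.Agent.Helper865.AP


theorem near_zero_lower
    (hkey : ∃ c : ℝ, 0 < c ∧ ∀ α : ℝ, 0 < α → α ≤ 1 → ∃ M0 : ℕ, ∀ M : ℕ, M0 ≤ M →
      ∀ (A : Finset ℤ) (u : ℤ), A ⊆ Icc u (u + M) → α * M ≤ A.card →
      c * M / (1 + Real.log (1 + Real.log (1 / α))) ≤ ((A + PZ M).card : ℝ)) :
    ∃ c : ℝ, 0 < c ∧ ∀ A : Set ℕ, 0 < lowerDensity A → lowerDensity A ≤ 1 →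
      c / (1 + Real.log (1 + Real.log (1 / lowerDensity A))) ≤ lowerDensity (plusPrimes A) := by
  classical
  obtain ⟨c, hc, hkey⟩ := hkey
  refine ⟨c / 6, by positivity, ?_⟩
  intro A hA0 hA1
  set x := lowerDensity A with hx
  have hfin : ∀ (S : Set ℕ) (n : ℕ), (S ∩ Set.Icc 1 n).Finite := fun S n =>
    (Set.finite_Icc 1 n).inter_of_right S
  have hle1 : ∀ (S : Set ℕ) (n : ℕ), ((S ∩ Set.Icc 1 n).ncard : ℝ) / n ≤ 1 := by
    intro S n
    apply div_le_one_of_le₀ _ (Nat.cast_nonneg n)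
    have h1 : (S ∩ Set.Icc 1 n).ncard ≤ (Set.Icc 1 n).ncard :=
      Set.ncard_le_ncard Set.inter_subset_right (Set.finite_Icc 1 n)
    have h2 : (Set.Icc 1 n).ncard = n := by
      rw [← Finset.coe_Icc, Set.ncard_coe_finset, Nat.card_Icc]
      omega
    rw [h2] at h1
    exact_mod_cast h1
  have hnn : ∀ (S : Set ℕ) (n : ℕ), (0 : ℝ) ≤ ((S ∩ Set.Icc 1 n).ncard : ℝ) / n := by
    intro S n
    positivity
  have h1 : ∀ᶠ n : ℕ in atTop, x / 2 < ((A ∩ Set.Icc 1 n).ncard : ℝ) / n := by
    apply eventually_lt_of_lt_liminf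
    · show x / 2 < lowerDensity A
      rw [← hx]
      linarith
    · exact isBoundedUnder_of ⟨0, hnn A⟩
  obtain ⟨M0, hM0⟩ := hkey (x / 2) (by positivity) (by linarith)
  obtain ⟨N1, hN1⟩ := eventually_atTop.1 h1
  set L : ℝ := 1 + Real.log (1 + Real.log (1 / (x / 2))) with hL
  set L0 : ℝ := 1 + Real.log (1 + Real.log (1 / x)) with hL0
  have ht : 0 ≤ Real.log (1 / x) := by
    apply Real.log_nonneg
    rw [le_div_iff₀ hA0]
    linarith
  have hL0pos : 1 ≤ L0 := by
    have : 0 ≤ Real.log (1 + Real.log (1 / x)) := Real.log_nonneg (by linarith)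
    linarith
  have hlog2 : Real.log (1 / (x / 2)) = Real.log 2 + Real.log (1 / x) := by
    rw [← Real.log_mul (by norm_num) (by positivity)]
    congr 1
    field_simp
  have hl2 : 0 < Real.log 2 := Real.log_pos (by norm_num)
  have hl21 : Real.log 2 ≤ 1 := by
    have := Real.log_two_lt_d9
    linarith
  have hLle : L ≤ 2 * L0 := by
    have g1 : Real.log (1 + Real.log (1 / (x / 2))) ≤ Real.log 2 + Real.log (1 + Real.log (1 / x)) := by
      rw [← Real.log_mul (by norm_num) (by linarith)]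
      apply Real.log_le_log
      · rw [hlog2]
        linarith
      · rw [hlog2]
        nlinarith
    have g2 : 0 ≤ Real.log (1 + Real.log (1 / x)) := Real.log_nonneg (by linarith)
    rw [hL, hL0]
    linarith
  have hLpos : 1 ≤ L := by
    have : 0 ≤ Real.log (1 + Real.log (1 / (x / 2))) := by
      apply Real.log_nonneg
      rw [hlog2]
      linarith
    rw [hL]
    linarith
  have key2 : ∀ N : ℕ, M0 ≤ N → N1 ≤ N → 1 ≤ N →
      c * N / L ≤ ((plusPrimes A ∩ Set.Icc 1 (2 * N)).ncard : ℝ) := by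
    intro N hN0 hN1' hN2
    set AN : Finset ℤ := ((hfin A N).toFinset).image (fun a : ℕ => (a : ℤ)) with hAN
    have hcardAN : AN.card = (A ∩ Set.Icc 1 N).ncard := by
      rw [hAN, Finset.card_image_of_injective _ Nat.cast_injective,
        Set.ncard_eq_toFinset_card _ (hfin A N)]
    have hsub : AN ⊆ Icc (0 : ℤ) (0 + N) := by
      intro z hz
      rw [hAN, Finset.mem_image] at hz
      obtain ⟨a, ha, rfl⟩ := hz
      rw [Set.Finite.mem_toFinset] at ha
      rw [Finset.mem_Icc]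
      have := ha.2.2
      constructor
      · positivity
      · rw [zero_add]
        exact_mod_cast this
    have hNpos : (0 : ℝ) < N := by exact_mod_cast hN2
    have hcd : x / 2 * N ≤ AN.card := by
      rw [hcardAN]
      have := hN1 N hN1'
      rw [lt_div_iff₀ hNpos] at this
      exact this.le
    refine (hM0 N hN0 AN 0 hsub hcd).trans ?_
    have hsub2 : AN + PZ N ⊆ ((hfin (plusPrimes A) (2 * N)).toFinset).image (fun a : ℕ => (a : ℤ)) := by
      intro z hz
      rw [Finset.mem_add] at hz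
      obtain ⟨y, hy, w, hw, rfl⟩ := hz
      rw [hAN, Finset.mem_image] at hy
      obtain ⟨a, ha, rfl⟩ := hy
      unfold PZ at hw
      rw [Finset.mem_image] at hw
      obtain ⟨p, hp, rfl⟩ := hw
      rw [Finset.mem_filter, Finset.mem_Icc] at hp
      rw [Set.Finite.mem_toFinset] at ha
      rw [Finset.mem_image]
      refine ⟨a + p, ?_, by push_cast; rfl⟩
      rw [Set.Finite.mem_toFinset]
      refine ⟨⟨a, ha.1, p, hp.2, rfl⟩, ?_⟩
      have g1 := ha.2.1
      have g2 := ha.2.2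
      rw [Set.mem_Icc]
      omega
    have h3 := Finset.card_le_card hsub2
    rw [Finset.card_image_of_injective _ Nat.cast_injective,
      ← Set.ncard_eq_toFinset_card _ (hfin (plusPrimes A) (2 * N))] at h3
    exact_mod_cast h3
  have hfinal : ∀ᶠ n : ℕ in atTop, c / 6 / L0 ≤
      ((plusPrimes A ∩ Set.Icc 1 n).ncard : ℝ) / n := by
    rw [eventually_atTop]
    refine ⟨2 * M0 + 2 * N1 + 3, ?_⟩
    intro n hn
    have hN := key2 (n / 2) (by omega) (by omega) (by omega)
    have hmono : ((plusPrimes A ∩ Set.Icc 1 (2 * (n / 2))).ncard : ℝ) ≤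
        ((plusPrimes A ∩ Set.Icc 1 n).ncard : ℝ) := by
      have : (plusPrimes A ∩ Set.Icc 1 (2 * (n / 2))).ncard ≤ (plusPrimes A ∩ Set.Icc 1 n).ncard := by
        apply Set.ncard_le_ncard _ (hfin _ n)
        apply Set.inter_subset_inter_right
        apply Set.Icc_subset_Icc_right
        omega
      exact_mod_cast this
    have hnpos : (0 : ℝ) < n := by
      have : 0 < n := by omega
      exact_mod_cast this
    have hhalf : (n : ℝ) ≤ 3 * ((n / 2 : ℕ) : ℝ) := by
      have : n ≤ 3 * (n / 2) := by omega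
      exact_mod_cast this
    rw [le_div_iff₀ hnpos]
    refine le_trans ?_ (hN.trans hmono)
    have hL0p : 0 < L0 := by linarith
    have hLp : 0 < L := by linarith
    rw [div_div, div_mul_eq_mul_div, div_le_div_iff₀ (by positivity) hLp]
    have hcn : c * n ≤ c * (3 * ((n / 2 : ℕ) : ℝ)) := mul_le_mul_of_nonneg_left hhalf hc.le
    have hpos2 : (0 : ℝ) ≤ c * (3 * ((n / 2 : ℕ) : ℝ)) := by positivity
    calc c * n * L ≤ (c * (3 * ((n / 2 : ℕ) : ℝ))) * (2 * L0) :=
          mul_le_mul hcn hLle hLp.le hpos2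
      _ = c * ((n / 2 : ℕ) : ℝ) * (6 * L0) := by ring
  unfold lowerDensity
  apply le_liminf_of_le _ hfinal
  exact (isBoundedUnder_of ⟨1, hle1 (plusPrimes A)⟩ : IsBoundedUnder (· ≤ ·) atTop
    (fun n : ℕ => ((plusPrimes A ∩ Set.Icc 1 n).ncard : ℝ) / n)).isCoboundedUnder_ge

end Pool.Agent.Helper865.AP.N_I1
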