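import Mathlib
import Pool.Agent.Helper865.AP.Defs

set_option autoImplicit false

open Finset Filter Topology
open scoped Pointwise

namespace Pool.Agent.Helper865.AP.N_I2

open Pool.Agent.Helper865.AP


open Classical in
theorem nou_nc (A : Set ℕ) (n : ℕ) :
    (A ∩ Set.Icc 1 n).ncard = ((Finset.Icc 1 n).filter (fun x => x ∈ A)).card := by
  rw [← Set.ncard_coe_finset]
  congr 1
  ext x
  simp
  tauto

open Classical in
theorem nou_compl (A : Set ℕ) (n : ℕ) :
    ((Finset.Icc 1 n).filter (fun x => x ∈ A)).card +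
      ((Finset.Icc 1 n).filter (fun x => x ∉ A)).card = n := by
  rw [Finset.card_filter_add_card_filter_not]
  simp

theorem nou_le (A : Set ℕ) (n : ℕ) : ((A ∩ Set.Icc 1 n).ncard : ℝ) / n ≤ 1 := by
  classical
  rw [nou_nc]
  have h := nou_compl A n
  have h1 : (((Finset.Icc 1 n).filter (fun x => x ∈ A)).card : ℝ) ≤ n := by
    exact_mod_cast (by omega : ((Finset.Icc 1 n).filter (fun x => x ∈ A)).card ≤ n)
  exact div_le_one_of_le₀ h1 (Nat.cast_nonneg _)

open Classical in
theorem nou_claim (B : Set ℕ) (y : ℝ) (hy : 0 < y)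
    (hld : lowerDensity B < 1 - y) (N0 : ℕ) :
    ∃ N, N0 ≤ N ∧ y / 8 * N ≤ (((Finset.Ioc (N / 2) N).filter (fun x => x ∉ B)).card : ℝ) := by
  by_contra hcon
  push Not at hcon
  have hind : ∀ N : ℕ, (((Finset.Icc 1 N).filter (fun x => x ∉ B)).card : ℝ) ≤ y / 4 * N + N0 := by
    intro N
    induction N using Nat.strong_induction_on with
    | _ N ih =>
      rcases lt_or_ge N N0 with h | h
      · have h1 := nou_compl B N
        have h2 : (((Finset.Icc 1 N).filter (fun x => x ∉ B)).card : ℝ) ≤ N0 := by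
          exact_mod_cast (by omega : ((Finset.Icc 1 N).filter (fun x => x ∉ B)).card ≤ N0)
        have h3 : 0 ≤ y / 4 * N := by positivity
        linarith
      · rcases Nat.eq_zero_or_pos N with h0 | h0
        · subst h0
          simp
        · have h1 := ih (N / 2) (Nat.div_lt_self h0 (by norm_num))
          have h2 := hcon N h
          have h3 : ((Finset.Icc 1 N).filter (fun x => x ∉ B)).card ≤
              ((Finset.Icc 1 (N / 2)).filter (fun x => x ∉ B)).card +
                ((Finset.Ioc (N / 2) N).filter (fun x => x ∉ B)).card := by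
            refine le_trans (Finset.card_le_card ?_) (Finset.card_union_le _ _)
            intro x hx
            simp only [Finset.mem_filter, Finset.mem_Icc, Finset.mem_union, Finset.mem_Ioc] at hx ⊢
            by_cases hx2 : x ≤ N / 2
            · exact Or.inl ⟨⟨hx.1.1, hx2⟩, hx.2⟩
            · exact Or.inr ⟨⟨by omega, hx.1.2⟩, hx.2⟩
          have h3' : (((Finset.Icc 1 N).filter (fun x => x ∉ B)).card : ℝ) ≤
              (((Finset.Icc 1 (N / 2)).filter (fun x => x ∉ B)).card : ℝ) +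
                (((Finset.Ioc (N / 2) N).filter (fun x => x ∉ B)).card : ℝ) := by exact_mod_cast h3
          have h4 : ((N / 2 : ℕ) : ℝ) ≤ (N : ℝ) / 2 := by
            have := @Nat.cast_div_le ℝ _ _ _ N 2
            simpa using this
          have h5 : y / 4 * ((N / 2 : ℕ) : ℝ) ≤ y / 4 * ((N : ℝ) / 2) :=
            mul_le_mul_of_nonneg_left h4 (by positivity)
          linarith
  have hfreq : ∃ᶠ n : ℕ in atTop, ((B ∩ Set.Icc 1 n).ncard : ℝ) / n < 1 - y :=
    frequently_lt_of_liminf_lt (isBoundedUnder_of ⟨1, nou_le B⟩ |>.isCoboundedUnder_ge) hld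
  obtain ⟨n, hn, hn2⟩ := (hfreq.and_eventually
    (eventually_gt_atTop ⌈(N0 : ℝ) / (3 / 4 * y)⌉₊)).exists
  have hn3 : (N0 : ℝ) / (3 / 4 * y) < n := (Nat.le_ceil _).trans_lt (by exact_mod_cast hn2)
  have hn0 : (0 : ℝ) < n := lt_of_le_of_lt (by positivity) hn3
  rw [nou_nc, div_lt_iff₀ hn0] at hn
  have h1 := nou_compl B n
  have h1' : (((Finset.Icc 1 n).filter (fun x => x ∈ B)).card : ℝ) +
      (((Finset.Icc 1 n).filter (fun x => x ∉ B)).card : ℝ) = n := by exact_mod_cast h1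
  have h2 := hind n
  rw [div_lt_iff₀ (by positivity)] at hn3
  nlinarith

theorem near_one_upper
    (hkey : ∃ c : ℝ, 0 < c ∧ ∀ α : ℝ, 0 < α → α ≤ 1 → ∃ M0 : ℕ, ∀ M : ℕ, M0 ≤ M →
      ∀ (A : Finset ℤ) (u : ℤ), A ⊆ Icc u (u + M) → α * M ≤ A.card →
      c * M / (1 + Real.log (1 + Real.log (1 / α))) ≤ ((A + PZ M).card : ℝ)) :
    ∃ c : ℝ, 0 < c ∧ ∀ (A : Set ℕ) (y : ℝ), 0 < y → y ≤ 1 → lowerDensity (plusPrimes A) < 1 - y →
      c / (1 + Real.log (1 + Real.log (8 / y))) ≤ 1 - lowerDensity A := by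
  classical
  obtain ⟨c, hc, hk⟩ := hkey
  refine ⟨c / 2, by positivity, fun A y hy hy1 hld => ?_⟩
  have hLpos : 0 < 1 + Real.log (1 + Real.log (8 / y)) := by
    have h8 : (1 : ℝ) ≤ 8 / y := by
      rw [le_div_iff₀ hy]
      linarith
    have h9 : 0 ≤ Real.log (8 / y) := Real.log_nonneg h8
    have h10 : 0 ≤ Real.log (1 + Real.log (8 / y)) := Real.log_nonneg (by linarith)
    linarith
  by_contra hcon
  push Not at hcon
  obtain ⟨d', hd1, hd2⟩ := exists_between
    (show 1 - c / 2 / (1 + Real.log (1 + Real.log (8 / y))) < lowerDensity A by linarith)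
  have hev : ∀ᶠ n : ℕ in atTop, d' < ((A ∩ Set.Icc 1 n).ncard : ℝ) / n :=
    eventually_lt_of_lt_liminf hd2 (isBoundedUnder_of ⟨0, fun n => by positivity⟩)
  obtain ⟨N1, hN1⟩ := eventually_atTop.1 hev
  obtain ⟨M0, hM0⟩ := hk (y / 8) (by positivity) (by linarith)
  have h88 : 1 / (y / 8) = 8 / y := by
    rw [one_div_div]
  rw [h88] at hM0
  obtain ⟨ε, hεd⟩ : ∃ ε, ε = d' - (1 - c / 2 / (1 + Real.log (1 + Real.log (8 / y)))) := ⟨_, rfl⟩
  have hε : 0 < ε := by rw [hεd]; linarith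
  generalize 1 + Real.log (1 + Real.log (8 / y)) = L at hLpos hcon hd1 hM0 hεd
  obtain ⟨N, hN, hNc⟩ := nou_claim (plusPrimes A) y hy hld (max (max N1 (2 * M0)) (⌈1 / ε⌉₊ + 1))
  have hNN1 : N1 ≤ N := le_trans (le_trans (le_max_left _ _) (le_max_left _ _)) hN
  have hNM0 : 2 * M0 ≤ N := le_trans (le_trans (le_max_right _ _) (le_max_left _ _)) hN
  have hNε : ⌈1 / ε⌉₊ + 1 ≤ N := le_trans (le_max_right _ _) hN
  have hNpos : 0 < N := by omega
  have hNR : (0 : ℝ) < N := by exact_mod_cast hNpos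
  obtain ⟨M, hM⟩ : ∃ M, M = N - N / 2 := ⟨_, rfl⟩
  have hM2 : (N : ℝ) ≤ 2 * M := by exact_mod_cast (by omega : N ≤ 2 * M)
  have hMN : (M : ℝ) ≤ N := by exact_mod_cast (by omega : M ≤ N)
  have hinjneg : Function.Injective (fun x : ℕ => -(x : ℤ)) := by
    intro a b h
    simpa using h
  have hkeyM := hM0 M (by omega)
    (((Finset.Ioc (N / 2) N).filter (fun x => x ∉ plusPrimes A)).image (fun x : ℕ => -(x : ℤ)))
    (-(N : ℤ)) (by
      intro z hz
      obtain ⟨x, hx, rfl⟩ := Finset.mem_image.1 hz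
      have hx' := Finset.mem_Ioc.1 (Finset.mem_filter.1 hx).1
      rw [Finset.mem_Icc]
      constructor <;> omega) (by
      rw [Finset.card_image_of_injective _ hinjneg]
      refine le_trans ?_ hNc
      exact mul_le_mul_of_nonneg_left hMN (by positivity))
  have hsub : ((((Finset.Ioc (N / 2) N).filter (fun x => x ∉ plusPrimes A)).image
      (fun x : ℕ => -(x : ℤ))) + PZ M) ⊆
      (insert 0 ((Finset.Icc 1 N).filter (fun x => x ∉ A))).image (fun x : ℕ => -(x : ℤ)) := by
    intro z hz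
    obtain ⟨a, ha, b, hb, rfl⟩ := Finset.mem_add.1 hz
    obtain ⟨x, hx, rfl⟩ := Finset.mem_image.1 ha
    obtain ⟨p, hp, rfl⟩ := Finset.mem_image.1 hb
    obtain ⟨hx1, hx2⟩ := Finset.mem_filter.1 hx
    obtain ⟨hp1, hp2⟩ := Finset.mem_filter.1 hp
    rw [Finset.mem_Ioc] at hx1
    rw [Finset.mem_Icc] at hp1
    have hpx : p ≤ x := by omega
    refine Finset.mem_image.2 ⟨x - p, ?_, ?_⟩
    · rw [Finset.mem_insert, Finset.mem_filter, Finset.mem_Icc]
      by_cases h0 : x - p = 0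
      · exact Or.inl h0
      · refine Or.inr ⟨⟨by omega, by omega⟩, fun hA => hx2 ⟨x - p, hA, p, hp2, by omega⟩⟩
    · rw [Nat.cast_sub hpx]
      ring
  have hcard := Finset.card_le_card hsub
  rw [Finset.card_image_of_injective _ hinjneg] at hcard
  have hcard2 := hcard.trans (Finset.card_insert_le _ _)
  have hcard3 : c * M / L ≤ (((Finset.Icc 1 N).filter (fun x => x ∉ A)).card : ℝ) + 1 := by
    refine hkeyM.trans ?_
    exact_mod_cast hcard2
  have hA := hN1 N hNN1
  rw [nou_nc, lt_div_iff₀ hNR] at hA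
  have h1' : (((Finset.Icc 1 N).filter (fun x => x ∈ A)).card : ℝ) +
      (((Finset.Icc 1 N).filter (fun x => x ∉ A)).card : ℝ) = N := by
    exact_mod_cast nou_compl A N
  have h5 : c / 2 / L * N ≤ c * M / L := by
    rw [div_div, div_mul_eq_mul_div, div_le_div_iff₀ (by positivity) hLpos]
    have h6 : c * N ≤ c * (2 * M) := mul_le_mul_of_nonneg_left hM2 hc.le
    have h7 := mul_le_mul_of_nonneg_right h6 hLpos.le
    linarith
  have h8 : 1 < ε * N := by
    have h9 : 1 / ε < N := by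
      calc 1 / ε ≤ (⌈1 / ε⌉₊ : ℝ) := Nat.le_ceil _
        _ < N := by exact_mod_cast (by omega : ⌈1 / ε⌉₊ < N)
    rw [div_lt_iff₀ hε] at h9
    linarith
  have h10 : ε * N = d' * N - N + c / 2 / L * N := by rw [hεd]; ring
  linarith

end Pool.Agent.Helper865.AP.N_I2
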