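import Mathlib
import Pool.Agent.Helper865.AP.Defs

set_option autoImplicit false

open Finset Filter Topology
open scoped Pointwise

namespace Pool.Agent.Helper865.AP.N_I3a

open Pool.Agent.Helper865.AP


/-- pure calculus: inverting the bound near `x = 1` -/
theorem invert_bound (c : ℝ) (hc : 0 < c) : ∃ c' : ℝ, 0 < c' ∧ ∀ x y : ℝ, 1 / 2 ≤ x → x < 1 →
    0 < y → y ≤ 1 - x → c / (1 + Real.log (1 + Real.log (8 / y))) ≤ 1 - x →
    y ≤ Real.exp (-(c' * Real.exp (c' / (1 - x)))) := by
  refine ⟨min c (Real.exp (-1) / 8), lt_min hc (by positivity), ?_⟩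
  intro x y hx hx1 hy hyx hD
  have hs : 0 < 1 - x := by linarith
  have hlog2 : (1 : ℝ) / 2 < Real.log 2 := by
    have := Real.log_two_gt_d9
    linarith
  have hL : Real.log 2 ≤ -Real.log y := by
    rw [← Real.log_inv]
    apply Real.log_le_log (by norm_num)
    rw [le_inv_comm₀ (by norm_num) hy]
    linarith
  have h8 : Real.log (8 / y) = 3 * Real.log 2 - Real.log y := by
    rw [Real.log_div (by norm_num) hy.ne']
    have : (8 : ℝ) = 2 ^ 3 := by norm_num
    rw [this, Real.log_pow]
    norm_num
  have h84 : Real.log (8 / y) ≤ 4 * (-Real.log y) := by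
    rw [h8]
    linarith
  have h8pos : 0 < Real.log (8 / y) := by
    rw [h8]
    linarith
  have hDpos : 0 < 1 + Real.log (1 + Real.log (8 / y)) := by
    have := Real.log_pos (by linarith : (1 : ℝ) < 1 + Real.log (8 / y))
    linarith
  have h1 : c / (1 - x) ≤ 1 + Real.log (1 + Real.log (8 / y)) := by
    rw [div_le_iff₀ hDpos] at hD
    rw [div_le_iff₀ hs]
    linarith
  have h2 : Real.exp (c / (1 - x) - 1) ≤ 1 + Real.log (8 / y) := by
    rw [← Real.le_log_iff_exp_le (by linarith)]
    linarith
  have h3 : Real.exp (c / (1 - x) - 1) / 8 ≤ -Real.log y := by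
    by_cases hE : Real.exp (c / (1 - x) - 1) ≤ 4
    · linarith
    · push Not at hE
      linarith
  have h4 : min c (Real.exp (-1) / 8) * Real.exp (min c (Real.exp (-1) / 8) / (1 - x)) ≤
      Real.exp (c / (1 - x) - 1) / 8 := by
    have e : Real.exp (c / (1 - x) - 1) / 8 = (Real.exp (-1) / 8) * Real.exp (c / (1 - x)) := by
      rw [sub_eq_add_neg, Real.exp_add]
      ring
    rw [e]
    apply mul_le_mul (min_le_right _ _) _ (Real.exp_pos _).le (by positivity)
    apply Real.exp_le_exp.2
    exact div_le_div_of_nonneg_right (min_le_left _ _) hs.le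
  rw [← Real.log_le_iff_le_exp hy]
  linarith

end Pool.Agent.Helper865.AP.N_I3a
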