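import Mathlib
import Pool.Agent.Helper865.AP.Defs

set_option autoImplicit false

open Finset Filter Topology
open scoped Pointwise

namespace Pool.Agent.Helper865.AP.N_I3b

open Pool.Agent.Helper865.AP


/-- pure calculus: the bound near `x = 0` -/
theorem small_bound : ∃ C : ℝ, 0 < C ∧ ∀ x : ℝ, 0 < x → x < 1 → ∀ z : ℕ,
    z = ⌊Real.log (1 / x) / Real.log 4⌋₊ →
      (z = 0 → 1 ≤ C / (1 + Real.log (1 + Real.log (1 / x)))) ∧
      (1 ≤ z → 2 / Real.log ((z : ℝ) + 1) ≤ C / (1 + Real.log (1 + Real.log (1 / x)))) := by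
  refine ⟨12, by norm_num, ?_⟩
  intro x hx0 hx1 z hz
  have hv : 0 < Real.log (1 / x) := Real.log_pos (by rw [lt_div_iff₀ hx0]; linarith)
  set v := Real.log (1 / x) with hvdef
  have hl2 := Real.log_two_gt_d9
  have hl2' := Real.log_two_lt_d9
  have hl4 : Real.log 4 = 2 * Real.log 2 := by
    rw [show (4 : ℝ) = 2 ^ 2 by norm_num, Real.log_pow]
    norm_num
  have hl4pos : 0 < Real.log 4 := by rw [hl4]; linarith
  have hfl : v / Real.log 4 < (z : ℝ) + 1 := by
    rw [hz]
    exact Nat.lt_floor_add_one _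
  have hvlt : v < ((z : ℝ) + 1) * Real.log 4 := by
    rwa [div_lt_iff₀ hl4pos] at hfl
  have hz0 : (0 : ℝ) ≤ z := Nat.cast_nonneg z
  have h1v : 1 + v ≤ ((z : ℝ) + 1) * 4 := by
    have : ((z : ℝ) + 1) * Real.log 4 ≤ ((z : ℝ) + 1) * 2 := by
      apply mul_le_mul_of_nonneg_left _ (by linarith)
      rw [hl4]; linarith
    nlinarith
  have hlog1v : Real.log (1 + v) ≤ Real.log ((z : ℝ) + 1) + Real.log 4 := by
    rw [← Real.log_mul (by linarith) (by norm_num)]
    exact Real.log_le_log (by linarith) h1v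
  have hlogpos : 0 ≤ Real.log (1 + v) := Real.log_nonneg (by linarith)
  have hL : 0 < 1 + Real.log (1 + v) := by linarith
  constructor
  · intro h0
    rw [le_div_iff₀ hL]
    have : Real.log ((z : ℝ) + 1) = 0 := by rw [h0]; simp
    rw [this] at hlog1v
    linarith
  · intro h1
    have hz1 : (1 : ℝ) ≤ z := by exact_mod_cast h1
    have hlz : Real.log 2 ≤ Real.log ((z : ℝ) + 1) :=
      Real.log_le_log (by norm_num) (by linarith)
    have hlzpos : 0 < Real.log ((z : ℝ) + 1) := by linarith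
    rw [div_le_div_iff₀ hlzpos hL]
    linarith

end Pool.Agent.Helper865.AP.N_I3b
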