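import Mathlib
import Pool.Agent.Helper865.AP.Defs

set_option autoImplicit false

open Finset Filter Topology
open scoped Pointwise

namespace Pool.Agent.Helper865.AP.N_I3c

open Pool.Agent.Helper865.AP


/-- pure calculus: size of the modulus near `x = 1` -/
theorem modulus_bound : ∃ C : ℝ, 0 < C ∧ ∀ ε : ℝ, 0 < ε → ε < 1 → ∀ z : ℕ,
    z = ⌈Real.exp (2 / ε)⌉₊ → 2 / Real.log ((z : ℝ) + 1) ≤ ε ∧
      (4 : ℝ) ^ z ≤ Real.exp (Real.exp (C / ε)) := by
  refine ⟨4, by norm_num, ?_⟩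
  intro ε hε hε1 z hz
  have h2 : 2 ≤ 2 / ε := by
    rw [le_div_iff₀ hε]; linarith
  have he0 : 0 < Real.exp (2 / ε) := Real.exp_pos _
  have he : 3 ≤ Real.exp (2 / ε) := by
    have := Real.add_one_le_exp (2 / ε)
    linarith
  have hz1 : Real.exp (2 / ε) ≤ z := by rw [hz]; exact Nat.le_ceil _
  have hz2 : (z : ℝ) < Real.exp (2 / ε) + 1 := by rw [hz]; exact Nat.ceil_lt_add_one he0.le
  constructor
  · have hl : 2 / ε ≤ Real.log ((z : ℝ) + 1) := by
      rw [Real.le_log_iff_exp_le (by linarith)]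
      linarith
    have hpos : 0 < 2 / ε := by positivity
    rw [div_le_iff₀ (lt_of_lt_of_le hpos hl)]
    calc (2 : ℝ) = ε * (2 / ε) := by field_simp
      _ ≤ ε * Real.log ((z : ℝ) + 1) := mul_le_mul_of_nonneg_left hl hε.le
  · have hlog4 : Real.log 4 < 2 := by
      rw [Real.log_lt_iff_lt_exp (by norm_num)]
      have := Real.quadratic_le_exp_of_nonneg (show (0:ℝ) ≤ 2 by norm_num)
      linarith
    have h4 : (4 : ℝ) ^ z = Real.exp ((z : ℝ) * Real.log 4) := by
      rw [Real.exp_nat_mul, Real.exp_log (by norm_num)]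
    rw [h4]
    apply Real.exp_le_exp.mpr
    have hsq : Real.exp (4 / ε) = Real.exp (2 / ε) * Real.exp (2 / ε) := by
      rw [← Real.exp_add]; congr 1; ring
    rw [hsq]
    have hlog0 : 0 ≤ Real.log 4 := Real.log_nonneg (by norm_num)
    have hz0 : (0 : ℝ) ≤ z := Nat.cast_nonneg z
    nlinarith

end Pool.Agent.Helper865.AP.N_I3c
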